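import Pool.Agent.H84.KEND.Ent
import Pool.Agent.H9.K2.Defs2

/-!
# Normalisation: the position at time zero in the unit cube

The position at time zero is replaced by its fractional part, and the unit cell becomes side
information. This increases all violations and functionals, up to a constant and the deficit of
the time.
-/

set_option autoImplicit false

namespace Pool.KEND

open Finset Real
open Pool.Agent.H49.Ent Pool.Agent.H32.Dense Pool.STK Pool.KA

variable {m J : ℕ}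

/-- The unit cell of the position at time zero. -/
noncomputable def cel (F : Fam m J) (ω : F.Ω) : Fin m → ℤ := fun i => ⌊F.u ω i⌋

/-- Normalisation: the position at time zero modulo one; the unit cell becomes side
information. -/
noncomputable def nrm (F : Fam m J) : Fam m J where
  Ω := F.Ω
  ζ := (Fin m → ℤ) × F.ζ
  fin := F.fin
  p := F.p
  u := fun ω i => Int.fract (F.u ω i)
  d := F.d
  T := F.T
  Z := fun ω => (cel F ω, F.Z ω)
  isLaw := F.isLaw
  dir := F.dir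
  tim := F.tim

theorem nrm_u_nonneg (F : Fam m J) (ω : F.Ω) (i : Fin m) : 0 ≤ (nrm F).u ω i :=
  Int.fract_nonneg _

theorem nrm_u_lt_one (F : Fam m J) (ω : F.Ω) (i : Fin m) : (nrm F).u ω i < 1 :=
  Int.fract_lt_one _

theorem abs_nrm_u_le (F : Fam m J) : ∀ (ω : (nrm F).Ω) (i : Fin m), |(nrm F).u ω i| ≤ 1 := by
  intro ω i
  rw [abs_of_nonneg (nrm_u_nonneg F ω i)]
  exact (nrm_u_lt_one F ω i).le

theorem nrm_x (F : Fam m J) (ω : F.Ω) (i : Fin m) : (nrm F).x ω i = F.x ω i - cel F ω i := by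
  show Int.fract (F.u ω i) + _ = F.u ω i + _ - (⌊F.u ω i⌋ : ℝ)
  rw [Int.fract]
  unfold Fam.t
  show F.u ω i - ⌊F.u ω i⌋ + (F.T ω : ℝ) / 2 ^ J * F.d ω i = _
  ring

theorem nrm_X (F : Fam m J) (j : ℕ) (ω : F.Ω) (i : Fin m) :
    (nrm F).X j ω i = F.X j ω i - 2 ^ j * cel F ω i := by
  show ⌊(2 : ℝ) ^ j * (nrm F).x ω i⌋ = ⌊(2 : ℝ) ^ j * F.x ω i⌋ - 2 ^ j * cel F ω i
  rw [nrm_x]
  have : (2 : ℝ) ^ j * (F.x ω i - cel F ω i) = (2 : ℝ) ^ j * F.x ω i -
      ((2 ^ j * cel F ω i : ℤ) : ℝ) := by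
    push_cast
    ring
  rw [this, Int.floor_sub_intCast]

/-- The unit cell and the normalised line determine the line, and conversely. -/
theorem nrm_l_det (F : Fam m J) : Det F.p (fun ω => ((nrm F).l ω, (nrm F).Z ω))
    (fun ω => (F.l ω, F.Z ω)) := by
  intro ω ω' _ _ h
  have h1 : (((nrm F).u ω, F.d ω), (cel F ω, F.Z ω)) =
      (((nrm F).u ω', F.d ω'), (cel F ω', F.Z ω')) := h
  simp only [Prod.mk.injEq] at h1
  obtain ⟨⟨h2, h3⟩, h4, h5⟩ := h1
  have h6 : F.u ω = F.u ω' := by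
    funext i
    have e1 : Int.fract (F.u ω i) = Int.fract (F.u ω' i) := congrFun h2 i
    have e2 : ⌊F.u ω i⌋ = ⌊F.u ω' i⌋ := congrFun h4 i
    rw [← Int.floor_add_fract (F.u ω i), ← Int.floor_add_fract (F.u ω' i), e1, e2]
  show ((F.u ω, F.d ω), F.Z ω) = ((F.u ω', F.d ω'), F.Z ω')
  rw [h6, h3, h5]

theorem l_det_nrm (F : Fam m J) : Det F.p (fun ω => (F.l ω, F.Z ω))
    (fun ω => ((nrm F).l ω, (nrm F).Z ω)) := by
  intro ω ω' _ _ h
  have h1 : ((F.u ω, F.d ω), F.Z ω) = ((F.u ω', F.d ω'), F.Z ω') := h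
  simp only [Prod.mk.injEq] at h1
  obtain ⟨⟨h2, h3⟩, h5⟩ := h1
  show (((fun i => Int.fract (F.u ω i)), F.d ω), ((fun i => ⌊F.u ω i⌋), F.Z ω)) =
    (((fun i => Int.fract (F.u ω' i)), F.d ω'), ((fun i => ⌊F.u ω' i⌋), F.Z ω'))
  rw [h2, h3, h5]

/-- Conditional entropies given the line are the same. -/
theorem nrm_CH_l (F : Fam m J) {S : Type} (Y : F.Ω → S) :
    CH F.p Y (fun ω => ((nrm F).l ω, (nrm F).Z ω)) = CH F.p Y (fun ω => (F.l ω, F.Z ω)) := by
  refine CH_congr F.isLaw.nonneg ?_ ?_ (nrm_l_det F) (l_det_nrm F)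
  · intro ω ω' _ _ h
    exact (Prod.ext_iff.mp h).1
  · intro ω ω' _ _ h
    exact (Prod.ext_iff.mp h).1

/-- Conditional entropies given the line and the time are the same. -/
theorem nrm_CH_lW (F : Fam m J) {S : Type} (Y : F.Ω → S) :
    CH F.p Y (fun ω => ((nrm F).l ω, (nrm F).W ω)) = CH F.p Y (fun ω => (F.l ω, F.W ω)) := by
  refine CH_congr F.isLaw.nonneg ?_ ?_ ?_ ?_
  · intro ω ω' _ _ h
    exact (Prod.ext_iff.mp h).1
  · intro ω ω' _ _ h
    exact (Prod.ext_iff.mp h).1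
  · intro ω ω' a b h
    have h1 : ((nrm F).l ω, (F.T ω, (nrm F).Z ω)) = ((nrm F).l ω', (F.T ω', (nrm F).Z ω')) := h
    simp only [Prod.mk.injEq] at h1
    have h2 := nrm_l_det F ω ω' a b (Prod.ext h1.1 h1.2.2)
    simp only [Prod.mk.injEq] at h2
    show (F.l ω, (F.T ω, F.Z ω)) = (F.l ω', (F.T ω', F.Z ω'))
    rw [h2.1, h2.2, h1.2.1]
  · intro ω ω' a b h
    have h1 : (F.l ω, (F.T ω, F.Z ω)) = (F.l ω', (F.T ω', F.Z ω')) := h
    simp only [Prod.mk.injEq] at h1
    have h2 := l_det_nrm F ω ω' a b (Prod.ext h1.1 h1.2.2)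
    simp only [Prod.mk.injEq] at h2
    show ((nrm F).l ω, (F.T ω, (nrm F).Z ω)) = ((nrm F).l ω', (F.T ω', (nrm F).Z ω'))
    rw [h2.1, h2.2, h1.2.1]

/-- The deficit of the time does not change. -/
theorem nrm_Tm (F : Fam m J) {e : ℝ} : (nrm F).Tm e ↔ F.Tm e := by
  unfold Fam.Tm
  have h := nrm_CH_l F F.T
  show (J : ℝ) * Real.log 2 - e ≤ CH F.p F.T (fun ω => ((nrm F).l ω, (nrm F).Z ω)) ↔ _
  rw [h]

/-- The position: normalised or not, given the unit cell (and anything else). -/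
theorem nrm_CH_X (F : Fam m J) (j : ℕ) {U : Type} (Y : F.Ω → U) :
    CH F.p ((nrm F).X j) (fun ω => (cel F ω, Y ω)) = CH F.p (F.X j) (fun ω => (cel F ω, Y ω)) := by
  have hp := F.isLaw.nonneg
  have h1 := CH_chain hp (F.X j) (cel F) Y
  have h2 := CH_chain hp ((nrm F).X j) (cel F) Y
  have h3 : CH F.p (fun ω => ((nrm F).X j ω, cel F ω)) Y = CH F.p (fun ω => (F.X j ω, cel F ω)) Y := by
    refine CH_congr hp ?_ ?_ (fun _ _ _ _ h => h) (fun _ _ _ _ h => h)
    · intro ω ω' _ _ h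
      simp only [Prod.mk.injEq] at h ⊢
      refine ⟨?_, h.1.2⟩
      funext i
      have e1 := congrFun h.1.1 i
      have e2 := congrFun h.1.2 i
      rw [nrm_X, nrm_X, e2] at e1
      linarith
    · intro ω ω' _ _ h
      simp only [Prod.mk.injEq] at h ⊢
      refine ⟨?_, h.1.2⟩
      funext i
      have e1 := congrFun h.1.1 i
      have e2 := congrFun h.1.2 i
      rw [nrm_X, nrm_X, e1, e2]
  linarith

/-- The unit cell is determined by the position at any scale and the time, up to a constant. -/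
theorem CH_cel_le (F : Fam m J) (j : ℕ) {U : Type} (Y : F.Ω → U) :
    CH F.p (cel F) (fun ω => (F.X j ω, Y ω)) ≤ m * Real.log 3 := by
  classical
  have hp := F.isLaw.nonneg
  have h := CH_le_card hp F.isLaw.sum_one (cel F) (fun ω => (F.X j ω, Y ω))
    (fun a => Fintype.piFinset fun i => Finset.Icc (a.1 i / 2 ^ j - 1) (a.1 i / 2 ^ j + 1))
    (fun ω _ => by
      rw [Fintype.mem_piFinset]
      intro i
      rw [Finset.mem_Icc]
      have e0 : (0 : ℝ) < 2 ^ j := by positivity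
      have e1 : F.X j ω i / 2 ^ j = ⌊F.x ω i⌋ := by
        show ⌊(2 : ℝ) ^ j * F.x ω i⌋ / 2 ^ j = _
        have := Int.floor_div_natCast ((2 : ℝ) ^ j * F.x ω i) (2 ^ j)
        push_cast at this
        rw [← this, mul_div_cancel_left₀ _ e0.ne']
      rw [e1]
      have e2 : F.x ω i = F.u ω i + F.t ω * F.d ω i := rfl
      have e3 : |F.t ω * F.d ω i| ≤ 1 := by
        have f1 : 0 ≤ F.t ω := by unfold Fam.t; positivity
        have f2 : F.t ω ≤ 1 := by
          unfold Fam.t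
          rw [div_le_one (by positivity)]
          exact_mod_cast (F.tim ω).le
        rw [abs_mul, abs_of_nonneg f1]
        have f3 := F.dir ω i
        have f4 := abs_nonneg (F.d ω i)
        nlinarith
      have e4 := abs_le.mp e3
      show ⌊F.x ω i⌋ - 1 ≤ ⌊F.u ω i⌋ ∧ ⌊F.u ω i⌋ ≤ ⌊F.x ω i⌋ + 1
      constructor
      · rw [Int.le_floor]
        push_cast
        have := Int.floor_le (F.x ω i)
        linarith
      · have f1 : (⌊F.u ω i⌋ : ℝ) - 1 ≤ F.x ω i := by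
          have := Int.floor_le (F.u ω i)
          linarith
        have f2 : ⌊F.u ω i⌋ - 1 ≤ ⌊F.x ω i⌋ := by
          rw [Int.le_floor]
          push_cast
          exact f1
        linarith)
  refine h.trans (le_of_eq ?_)
  have h2 : ∀ ω, Real.log ((Fintype.piFinset fun i =>
      Finset.Icc (F.X j ω i / 2 ^ j - 1) (F.X j ω i / 2 ^ j + 1)).card : ℝ) = m * Real.log 3 := by
    intro ω
    have e1 : ∀ a : ℤ, (Finset.Icc (a - 1) (a + 1)).card = 3 := by
      intro a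
      rw [Int.card_Icc]
      have : a + 1 + 1 - (a - 1) = 3 := by ring
      rw [this]
      rfl
    rw [Fintype.card_piFinset]
    simp only [e1, Finset.prod_const, Finset.card_univ, Fintype.card_fin]
    push_cast
    rw [Real.log_pow]
  have h3 : (fun ω => Real.log ((Fintype.piFinset fun i =>
      Finset.Icc (F.X j ω i / 2 ^ j - 1) (F.X j ω i / 2 ^ j + 1)).card : ℝ)) =
      fun _ => (m : ℝ) * Real.log 3 := funext h2
  show Ex F.p (fun ω => Real.log ((Fintype.piFinset fun i =>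
      Finset.Icc (F.X j ω i / 2 ^ j - 1) (F.X j ω i / 2 ^ j + 1)).card : ℝ)) = _
  rw [h3]
  exact Ex_const F.isLaw.sum_one _

/-- Functions of the line and the side information have little information on the time. -/
theorem CH_line_time (F : Fam m J) {e : ℝ} (he : F.Tm e) {S : Type} {Y : F.Ω → S}
    (hY : Det F.p (fun ω => (F.l ω, F.Z ω)) Y) : CH F.p Y F.Z ≤ CH F.p Y F.W + e := by
  have hp := F.isLaw.nonneg
  have h1 : CH F.p F.T F.Z - CH F.p F.T (fun ω => (Y ω, F.Z ω)) =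
      CH F.p Y F.Z - CH F.p Y (fun ω => (F.T ω, F.Z ω)) := info_symm hp F.T Y F.Z
  have h2 := CH_T_le F F.Z
  have h3 : (J : ℝ) * Real.log 2 - e ≤ CH F.p F.T (fun ω => (F.l ω, F.Z ω)) := he
  have h4 : CH F.p F.T (fun ω => (F.l ω, F.Z ω)) ≤ CH F.p F.T (fun ω => (Y ω, F.Z ω)) := by
    refine CH_mono_cond hp ?_
    intro ω ω' a b h
    exact Prod.ext (hY ω ω' a b h) (Prod.ext_iff.mp h).2
  show CH F.p Y F.Z ≤ CH F.p Y (fun ω => (F.T ω, F.Z ω)) + e
  linarith

theorem nrm_CH_XW (F : Fam m J) (j : ℕ) :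
    CH F.p ((nrm F).X j) (nrm F).W = CH F.p (F.X j) (fun ω => (cel F ω, F.W ω)) := by
  have hp := F.isLaw.nonneg
  rw [← nrm_CH_X F j F.W]
  refine CH_congr hp ?_ ?_ ?_ ?_
  · intro ω ω' _ _ h
    exact (Prod.ext_iff.mp h).1
  · intro ω ω' _ _ h
    exact (Prod.ext_iff.mp h).1
  · intro ω ω' _ _ h
    have h1 : (F.T ω, (cel F ω, F.Z ω)) = (F.T ω', (cel F ω', F.Z ω')) := h
    show (cel F ω, (F.T ω, F.Z ω)) = (cel F ω', (F.T ω', F.Z ω'))
    simp only [Prod.mk.injEq] at h1 ⊢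
    tauto
  · intro ω ω' _ _ h
    have h1 : (cel F ω, (F.T ω, F.Z ω)) = (cel F ω', (F.T ω', F.Z ω')) := h
    show (F.T ω, (cel F ω, F.Z ω)) = (F.T ω', (cel F ω', F.Z ω'))
    simp only [Prod.mk.injEq] at h1 ⊢
    tauto

/-- The entropy of the position decreases by the entropy of the unit cell. -/
theorem CH_X_nrm_le (F : Fam m J) {e : ℝ} (he : F.Tm e) (j : ℕ) :
    CH F.p ((nrm F).X j) (nrm F).W ≤ CH F.p (F.X j) F.W - CH F.p (cel F) F.Z +
      (m * Real.log 3 + e) := by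
  have hp := F.isLaw.nonneg
  rw [nrm_CH_XW]
  have h1 := info_symm hp (F.X j) (cel F) F.W
  have h2 := CH_cel_le F j F.W
  have h3 : CH F.p (cel F) F.Z ≤ CH F.p (cel F) F.W + e := by
    refine CH_line_time F he ?_
    intro ω ω' _ _ h
    have h4 : F.u ω = F.u ω' := (Prod.ext_iff.mp (Prod.ext_iff.mp h).1).1
    show (fun i => ⌊F.u ω i⌋) = fun i => ⌊F.u ω' i⌋
    rw [h4]
  linarith

/-- The entropy of the direction decreases by at most the entropy of the unit cell. -/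
theorem CH_D_nrm_ge (F : Fam m J) (j : ℕ) :
    CH F.p (F.D j) F.Z - CH F.p (cel F) F.Z ≤ CH F.p ((nrm F).D j) (nrm F).Z := by
  have hp := F.isLaw.nonneg
  have h1 := CH_le_add hp (F.D j) (cel F) F.Z
  have h2 : CH F.p ((nrm F).D j) (nrm F).Z = CH F.p (F.D j) (fun ω => (cel F ω, F.Z ω)) := rfl
  rw [h2]
  linarith

/-- **Normalisation increases the violations.** -/
theorem V_le_nrm (F : Fam m J) {e : ℝ} (he : F.Tm e) (j : ℕ) :
    F.V j ≤ (nrm F).V j + (m * Real.log 3 + e) := by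
  have h1 := CH_X_nrm_le F he j
  have h2 := CH_D_nrm_ge F J
  show CH F.p (F.D J) F.Z - CH F.p (F.X j) F.W - m * (((J : ℝ) - j) * Real.log 2) ≤
    CH F.p ((nrm F).D J) (nrm F).Z - CH F.p ((nrm F).X j) (nrm F).W -
      m * (((J : ℝ) - j) * Real.log 2) + (m * Real.log 3 + e)
  linarith

/-- **Normalisation increases the functional of the class `(a, R)`.** -/
theorem Ga_le_nrm (F : Fam m J) {e : ℝ} (he : F.Tm e) {a : ℝ} (ha : 1 ≤ a) :
    F.Ga a ≤ (nrm F).Ga a + a * (m * Real.log 3 + e) := by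
  have hp := F.isLaw.nonneg
  have h1 := CH_X_nrm_le F he J
  have h2 := CH_D_nrm_ge F J
  have h3 := CH_nonneg hp (cel F) F.Z
  have h4 := mul_le_mul_of_nonneg_left h1 (zero_le_one.trans ha)
  show CH F.p (F.D J) F.Z - a * CH F.p (F.X J) F.W ≤
    CH F.p ((nrm F).D J) (nrm F).Z - a * CH F.p ((nrm F).X J) (nrm F).W +
      a * (m * Real.log 3 + e)
  nlinarith

/-- The difference of two violations changes by a constant. -/
theorem V_sub_nrm (F : Fam m J) (i j : ℕ) :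
    F.V j - F.V i ≤ (nrm F).V j - (nrm F).V i + m * Real.log 3 := by
  have hp := F.isLaw.nonneg
  have h1 := info_symm hp (F.X j) (cel F) F.W
  have h2 := CH_cel_le F j F.W
  have h3 := info_symm hp (F.X i) (cel F) F.W
  have h4 := CH_nonneg hp (cel F) (fun ω => (F.X i ω, F.W ω))
  have e1 : (nrm F).V j = CH F.p (F.D J) (fun ω => (cel F ω, F.Z ω)) -
    CH F.p (F.X j) (fun ω => (cel F ω, F.W ω)) - m * (((J : ℝ) - j) * Real.log 2) := by
    show CH F.p (F.D J) (fun ω => (cel F ω, F.Z ω)) -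
      CH F.p ((nrm F).X j) (nrm F).W - m * (((J : ℝ) - j) * Real.log 2) = _
    rw [nrm_CH_XW]
  have e2 : (nrm F).V i = CH F.p (F.D J) (fun ω => (cel F ω, F.Z ω)) -
    CH F.p (F.X i) (fun ω => (cel F ω, F.W ω)) - m * (((J : ℝ) - i) * Real.log 2) := by
    show CH F.p (F.D J) (fun ω => (cel F ω, F.Z ω)) -
      CH F.p ((nrm F).X i) (nrm F).W - m * (((J : ℝ) - i) * Real.log 2) = _
    rw [nrm_CH_XW]
  rw [e1, e2]
  unfold Fam.V
  linarith

/-- **Normalisation increases the functional `G`.** -/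
theorem G_le_nrm (F : Fam m J) {e : ℝ} (he : F.Tm e) (he0 : 0 ≤ e) {μ lam : ℝ} (hμ : 0 ≤ μ)
    {w : ℕ} (hw : w ≤ J) :
    F.G μ lam w ≤ (nrm F).G μ lam w + (1 + μ) * (m * Real.log 3 + e) := by
  have h1 := V_sub_nrm F w J
  have h2 := V_le_nrm F he w
  have hlog3 : 0 ≤ Real.log 3 := Real.log_nonneg (by norm_num)
  have hC : 0 ≤ m * Real.log 3 + e := by positivity
  have hwJ : (w : ℝ) ≤ J := by exact_mod_cast hw
  have h3 : ((J : ℝ) - w) * (μ * F.V w / J) ≤ ((J : ℝ) - w) * (μ * (nrm F).V w / J) +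
      μ * (m * Real.log 3 + e) := by
    rcases Nat.eq_zero_or_pos J with h0 | h0
    · subst h0
      have : w = 0 := by omega
      subst this
      simp only [Nat.cast_zero, sub_self, zero_mul, zero_add]
      positivity
    · have hJ : (0 : ℝ) < J := by exact_mod_cast h0
      have e1 : ((J : ℝ) - w) * (μ * F.V w / J) = ((J : ℝ) - w) / J * μ * F.V w := by
        field_simp
      have e2 : ((J : ℝ) - w) * (μ * (nrm F).V w / J) = ((J : ℝ) - w) / J * μ * (nrm F).V w := by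
        field_simp
      have e3 : 0 ≤ ((J : ℝ) - w) / J := div_nonneg (by linarith) hJ.le
      have e4 : ((J : ℝ) - w) / J ≤ 1 := by
        rw [div_le_one hJ]
        have : (0 : ℝ) ≤ w := Nat.cast_nonneg w
        linarith
      rw [e1, e2]
      have e5 := mul_le_mul_of_nonneg_left h2 (mul_nonneg e3 hμ)
      have e6 : ((J : ℝ) - w) / J * μ * (m * Real.log 3 + e) ≤ μ * (m * Real.log 3 + e) := by
        have : ((J : ℝ) - w) / J * μ ≤ μ := by nlinarith
        exact mul_le_mul_of_nonneg_right this hC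
      linarith
  unfold Fam.G
  nlinarith

/-- **Visibility of a label is preserved.** -/
theorem nrm_vis (F : Fam m J) {κ : Type} (z : F.Ω → κ) {s : ℝ}
    (hs : CH F.p z (fun ω => (F.X J ω, F.W ω)) ≤ CH F.p z (fun ω => (F.l ω, F.W ω)) + s) :
    CH F.p z (fun ω => ((nrm F).X J ω, (nrm F).W ω)) ≤
      CH F.p z (fun ω => ((nrm F).l ω, (nrm F).W ω)) + s := by
  have hp := F.isLaw.nonneg
  rw [nrm_CH_lW]
  refine le_trans (CH_mono_cond hp ?_) hs
  intro ω ω' _ _ h
  have h1 : ((nrm F).X J ω, (F.T ω, (cel F ω, F.Z ω))) =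
    ((nrm F).X J ω', (F.T ω', (cel F ω', F.Z ω'))) := h
  simp only [Prod.mk.injEq] at h1
  obtain ⟨h2, h3, h4, h5⟩ := h1
  show (F.X J ω, (F.T ω, F.Z ω)) = (F.X J ω', (F.T ω', F.Z ω'))
  have h6 : F.X J ω = F.X J ω' := by
    funext i
    have e1 := congrFun h2 i
    have e2 := congrFun h4 i
    rw [nrm_X, nrm_X, e2] at e1
    linarith
  rw [h6, h3, h5]

/-- Entropies of the position given a label, after normalisation: the loss is the entropy of the
unit cell given label and time. -/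
theorem nrm_full (F : Fam m J) (j : ℕ) {κ : Type} (z : F.Ω → κ) :
    CH F.p (F.X j) (fun ω => (z ω, F.W ω)) - CH F.p (cel F) (fun ω => (z ω, F.W ω)) ≤
      CH F.p ((nrm F).X j) (fun ω => (z ω, (nrm F).W ω)) := by
  have hp := F.isLaw.nonneg
  have h1 := CH_le_add hp (F.X j) (cel F) (fun ω => (z ω, F.W ω))
  have h2 := nrm_CH_X F j (fun ω => (z ω, F.W ω))
  have h3 : CH F.p ((nrm F).X j) (fun ω => (z ω, (nrm F).W ω)) =
      CH F.p ((nrm F).X j) (fun ω => (cel F ω, (z ω, F.W ω))) := by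
    refine CH_congr hp ?_ ?_ ?_ ?_
    · intro ω ω' _ _ h
      exact (Prod.ext_iff.mp h).1
    · intro ω ω' _ _ h
      exact (Prod.ext_iff.mp h).1
    · intro ω ω' _ _ h
      have h1 : (z ω, (F.T ω, (cel F ω, F.Z ω))) = (z ω', (F.T ω', (cel F ω', F.Z ω'))) := h
      show (cel F ω, (z ω, (F.T ω, F.Z ω))) = (cel F ω', (z ω', (F.T ω', F.Z ω')))
      simp only [Prod.mk.injEq] at h1 ⊢
      tauto
    · intro ω ω' _ _ h
      have h1 : (cel F ω, (z ω, (F.T ω, F.Z ω))) = (cel F ω', (z ω', (F.T ω', F.Z ω'))) := h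
      show (z ω, (F.T ω, (cel F ω, F.Z ω))) = (z ω', (F.T ω', (cel F ω', F.Z ω')))
      simp only [Prod.mk.injEq] at h1 ⊢
      tauto
  rw [h3, h2]
  linarith

/-! ### Consequences for the classes -/

/-- Families whose position at time zero is in the unit cube. -/
def Unt (F : Fam m J) : Prop := ∀ ω i, 0 ≤ F.u ω i ∧ F.u ω i < 1

theorem nrm_unt (F : Fam m J) : Unt (nrm F) := fun ω i => ⟨nrm_u_nonneg F ω i, nrm_u_lt_one F ω i⟩

theorem Unt.abs_le {F : Fam m J} (h : Unt F) : ∀ ω i, |F.u ω i| ≤ 1 := by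
  intro ω i
  rw [abs_of_nonneg (h ω i).1]
  exact (h ω i).2.le

/-- It suffices to prove the entropy inequality for families in the unit cube. -/
theorem KP_of_unt (h : ∀ ε > 0, ∃ θ > 0, ∃ J₀ : ℕ, ∀ J ≥ J₀, ∀ F : Fam m J, Unt F →
    F.Tm (θ * J) → F.V J ≤ ε * J) : KP m := by
  intro ε hε
  obtain ⟨θ, hθ, J₀, hJ⟩ := h (ε / 3) (by positivity)
  obtain ⟨J₁, hJ₁⟩ := exists_nat_ge (3 * (m * Real.log 3) / ε)
  refine ⟨min θ (ε / 3), by positivity, max J₀ J₁, fun J hJJ F hF => ?_⟩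
  have h1 : (J₁ : ℝ) ≤ J := by exact_mod_cast (le_max_right _ _).trans hJJ
  have hJ0 : (0 : ℝ) ≤ J := Nat.cast_nonneg J
  have h2 : F.Tm (θ * J) := by
    unfold Fam.Tm at hF ⊢
    have := mul_le_mul_of_nonneg_right (min_le_left θ (ε / 3)) hJ0
    linarith
  have h3 := hJ J ((le_max_left _ _).trans hJJ) (nrm F) (nrm_unt F) ((nrm_Tm F).mpr h2)
  have h4 := V_le_nrm F hF J
  have h5 := mul_le_mul_of_nonneg_right (min_le_right θ (ε / 3)) hJ0
  have h6 : m * Real.log 3 ≤ ε / 3 * J := by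
    have : 3 * (m * Real.log 3) / ε ≤ J := hJ₁.trans h1
    rw [div_le_iff₀ hε] at this
    linarith
  linarith

theorem nrm_Mx {F : Fam m J} {a R τ τ' : ℝ} (ha : 1 ≤ a) (hF : F.Mx a R τ)
    (h : (1 + a) * τ * J + a * (m * Real.log 3) ≤ τ' * J) (hτ : τ * J ≤ τ' * J) :
    (nrm F).Mx a R τ' := by
  have h1 := Ga_le_nrm F hF.1 ha
  have h2 := hF.2
  refine ⟨?_, ?_⟩
  · have h3 := (nrm_Tm F).mpr hF.1
    unfold Fam.Tm at h3 ⊢
    linarith
  · nlinarith

theorem nrm_NMa {F : Fam m J} {a R η θ η' : ℝ} (ha : 1 ≤ a) (hF : F.NMa a R η θ)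
    (h : (η + a * θ) * J + a * (m * Real.log 3) ≤ η' * J) : (nrm F).NMa a R η' θ := by
  have h1 := Ga_le_nrm F hF.1 ha
  have h2 := hF.2
  exact ⟨(nrm_Tm F).mpr hF.1, by nlinarith⟩

/-- Near-maximisers of the functional in the unit cube. -/
theorem LBa_unt {a R : ℝ} (ha : 1 ≤ a) (h : LBa m a R) : ∀ η > 0, ∀ θ > 0, ∀ J₀ : ℕ, ∃ J ≥ J₀,
    ∃ F : Fam m J, Unt F ∧ F.Tm (θ * J) ∧ (R - η) * J ≤ F.Ga a := by
  intro η hη θ hθ J₀
  obtain ⟨J₁, hJ₁⟩ := exists_nat_ge (3 * (a * (m * Real.log 3)) / η)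
  have ha0 : 0 < a := by linarith
  obtain ⟨J, hJJ, F, hF, hG⟩ := h (η / 3) (by positivity) (min θ (η / (3 * a))) (by positivity)
    (max J₀ J₁)
  have h1 : (J₁ : ℝ) ≤ J := by exact_mod_cast (le_max_right _ _).trans hJJ
  have hJ0 : (0 : ℝ) ≤ J := Nat.cast_nonneg J
  refine ⟨J, (le_max_left _ _).trans hJJ, nrm F, nrm_unt F, ?_, ?_⟩
  · have h3 := (nrm_Tm F).mpr hF
    unfold Fam.Tm at h3 ⊢
    have := mul_le_mul_of_nonneg_right (min_le_left θ (η / (3 * a))) hJ0
    linarith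
  · have h4 := Ga_le_nrm F hF ha
    have h5 : a * (min θ (η / (3 * a)) * J) ≤ η / 3 * J := by
      have e1 : a * (min θ (η / (3 * a)) * J) ≤ a * (η / (3 * a) * J) :=
        mul_le_mul_of_nonneg_left (mul_le_mul_of_nonneg_right (min_le_right _ _) hJ0) ha0.le
      have e2 : a * (η / (3 * a) * J) = η / 3 * J := by field_simp
      linarith
    have h6 : a * (m * Real.log 3) ≤ η / 3 * J := by
      have : 3 * (a * (m * Real.log 3)) / η ≤ J := hJ₁.trans h1
      rw [div_le_iff₀ hη] at this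
      linarith
    nlinarith

end Pool.KEND
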