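import Pool.Agent.H84.KEND.Impl
import Pool.Agent.H41.STK.MUL
import Pool.Agent.H40.STK.MUI

/-!
# Random nodes

Copies of the time, conditionally independent given the line and its label, serve as nodes.
-/

set_option autoImplicit false

namespace Pool.KEND

open Finset Real MeasureTheory MvPolynomial
open Pool.Agent.H49.Ent Pool.Agent.H32.Dense Pool.STK Pool.KA Pool.Agent.H50.PW

/-! ### The energy -/

theorem sum_inv_sqrt (n : ℕ) : ∑ k ∈ Finset.range n, 1 / √((k : ℝ) + 1) ≤ 2 * √(n : ℝ) := by
  induction n with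
  | zero => simp
  | succ n ih =>
    rw [Finset.sum_range_succ]
    push_cast
    have h0 : (0 : ℝ) ≤ n := Nat.cast_nonneg n
    have h1 : √((n : ℝ) + 1) * √((n : ℝ) + 1) = n + 1 := Real.mul_self_sqrt (by linarith)
    have h2 : √(n : ℝ) * √(n : ℝ) = n := Real.mul_self_sqrt h0
    have h3 : 0 < √((n : ℝ) + 1) := Real.sqrt_pos.mpr (by linarith)
    have h4 : 0 ≤ √(n : ℝ) := Real.sqrt_nonneg _
    have h5 : 1 / √((n : ℝ) + 1) ≤ 2 * √((n : ℝ) + 1) - 2 * √(n : ℝ) := by
      rw [div_le_iff₀ h3]
      nlinarith [sq_nonneg (√((n : ℝ) + 1) - √(n : ℝ))]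
    linarith

/-- The truncated distance of two natural numbers. -/
def dd (x y : ℕ) : ℕ := max (max (x - y) (y - x)) 1

theorem one_le_dd (x y : ℕ) : 1 ≤ dd x y := le_max_right _ _

theorem sum_kernel_le (M x : ℕ) : ∑ y ∈ Finset.range M, 1 / √(dd x y : ℝ) ≤ 6 * √(M : ℝ) := by
  classical
  rcases Nat.eq_zero_or_pos M with h0 | hM
  · subst h0; simp
  -- split in `y ≤ x` and `x < y`
  have hone : (1 : ℝ) ≤ √(M : ℝ) := by
    rw [Real.one_le_sqrt]
    exact_mod_cast hM
  have h1 : ∑ y ∈ (Finset.range M).filter (fun y => x < y), 1 / √(dd x y : ℝ) ≤ 2 * √(M : ℝ) := by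
    refine le_trans ?_ (sum_inv_sqrt M)
    have hinj : Set.InjOn (fun y => y - x - 1) ((Finset.range M).filter (fun y => x < y)) := by
      intro a ha b hb hab
      simp only [Finset.coe_filter, Finset.mem_range, Set.mem_ofPred_eq] at ha hb hab
      omega
    have h2 : ∑ y ∈ (Finset.range M).filter (fun y => x < y), 1 / √(dd x y : ℝ) =
        ∑ k ∈ ((Finset.range M).filter (fun y => x < y)).image (fun y => y - x - 1),
          1 / √((k : ℝ) + 1) := by
      rw [Finset.sum_image hinj]
      refine Finset.sum_congr rfl fun y hy => ?_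
      rw [Finset.mem_filter] at hy
      have h3 : dd x y = (y - x - 1) + 1 := by unfold dd; omega
      rw [h3]
      push_cast
      rfl
    rw [h2]
    refine Finset.sum_le_sum_of_subset_of_nonneg ?_ (fun _ _ _ => by positivity)
    intro k hk
    obtain ⟨y, hy, rfl⟩ := Finset.mem_image.mp hk
    rw [Finset.mem_filter, Finset.mem_range] at hy
    rw [Finset.mem_range]
    omega
  have h2 : ∑ y ∈ (Finset.range M).filter (fun y => ¬ x < y), 1 / √(dd x y : ℝ) ≤
      4 * √(M : ℝ) := by
    rcases Nat.lt_or_ge x (2 * M) with hx | hx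
    · -- distances `x - y` for `y ≤ x`
      have h3 : ∀ y ∈ (Finset.range M).filter (fun y => ¬ x < y),
          1 / √(dd x y : ℝ) ≤ (if y = x then 1 else 0) + (if y < x then 1 / √(dd x y : ℝ) else 0) := by
        intro y hy
        rw [Finset.mem_filter] at hy
        rcases eq_or_lt_of_le (not_lt.mp hy.2) with h | h
        · subst h
          simp only [if_true, lt_irrefl, if_false, add_zero]
          have : dd y y = 1 := by unfold dd; omega
          rw [this]
          simp
        · rw [if_neg (by omega), if_pos h, zero_add]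
      refine (Finset.sum_le_sum h3).trans ?_
      rw [Finset.sum_add_distrib]
      have h4 : ∑ y ∈ (Finset.range M).filter (fun y => ¬ x < y), (if y = x then (1 : ℝ) else 0) ≤ 1 := by
        rw [Finset.sum_ite_eq']
        split_ifs
        · exact le_rfl
        · exact zero_le_one
      have h5 : ∑ y ∈ (Finset.range M).filter (fun y => ¬ x < y),
          (if y < x then 1 / √(dd x y : ℝ) else 0) ≤ 3 * √(M : ℝ) := by
        rw [← Finset.sum_filter, Finset.filter_filter]
        have hinj : Set.InjOn (fun y => x - y - 1)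
            ((Finset.range M).filter (fun y => ¬ x < y ∧ y < x)) := by
          intro a ha b hb hab
          simp only [Finset.coe_filter, Finset.mem_range, Set.mem_ofPred_eq] at ha hb hab
          omega
        have h6 : ∑ y ∈ (Finset.range M).filter (fun y => ¬ x < y ∧ y < x), 1 / √(dd x y : ℝ) =
            ∑ k ∈ ((Finset.range M).filter (fun y => ¬ x < y ∧ y < x)).image (fun y => x - y - 1),
              1 / √((k : ℝ) + 1) := by
          rw [Finset.sum_image hinj]
          refine Finset.sum_congr rfl fun y hy => ?_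
          rw [Finset.mem_filter] at hy
          have h7 : dd x y = (x - y - 1) + 1 := by unfold dd; omega
          rw [h7]
          push_cast
          rfl
        rw [h6]
        have h8 : ∑ k ∈ ((Finset.range M).filter (fun y => ¬ x < y ∧ y < x)).image
            (fun y => x - y - 1), 1 / √((k : ℝ) + 1) ≤
            ∑ k ∈ Finset.range (2 * M), 1 / √((k : ℝ) + 1) := by
          refine Finset.sum_le_sum_of_subset_of_nonneg ?_ (fun _ _ _ => by positivity)
          intro k hk
          obtain ⟨y, hy, rfl⟩ := Finset.mem_image.mp hk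
          rw [Finset.mem_filter, Finset.mem_range] at hy
          rw [Finset.mem_range]
          omega
        refine h8.trans ((sum_inv_sqrt _).trans ?_)
        push_cast
        rw [Real.sqrt_mul (by norm_num)]
        have h9 : √(2 : ℝ) ≤ 3 / 2 := by
          rw [Real.sqrt_le_left (by norm_num)]
          norm_num
        nlinarith [Real.sqrt_nonneg (M : ℝ)]
      linarith
    · -- far away
      have h3 : ∀ y ∈ (Finset.range M).filter (fun y => ¬ x < y), 1 / √(dd x y : ℝ) ≤ 1 / √(M : ℝ) := by
        intro y hy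
        rw [Finset.mem_filter, Finset.mem_range] at hy
        have h4 : M ≤ dd x y := by unfold dd; omega
        have h5 : (M : ℝ) ≤ dd x y := by exact_mod_cast h4
        have h6 : √(M : ℝ) ≤ √(dd x y : ℝ) := Real.sqrt_le_sqrt h5
        exact one_div_le_one_div_of_le (by linarith) h6
      refine (Finset.sum_le_card_nsmul _ _ _ h3).trans ?_
      have h4 : ((Finset.range M).filter (fun y => ¬ x < y)).card ≤ M := by
        refine (Finset.card_filter_le _ _).trans ?_
        rw [Finset.card_range]
      rw [nsmul_eq_mul]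
      have h5 : (((Finset.range M).filter (fun y => ¬ x < y)).card : ℝ) ≤ M := by exact_mod_cast h4
      have h6 : √(M : ℝ) * √(M : ℝ) = M := Real.mul_self_sqrt (Nat.cast_nonneg M)
      have h7 : (((Finset.range M).filter (fun y => ¬ x < y)).card : ℝ) * (1 / √(M : ℝ)) ≤
          M * (1 / √(M : ℝ)) := mul_le_mul_of_nonneg_right h5 (by positivity)
      refine h7.trans ?_
      rw [mul_one_div, div_le_iff₀ (by linarith)]
      nlinarith
  have h3 := Finset.sum_filter_add_sum_filter_not (Finset.range M) (fun y => x < y)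
    (fun y => 1 / √(dd x y : ℝ))
  linarith

/-- Two times, the second one with a small deficit given the first one: their mean logarithmic
distance. -/
theorem energy_le {Ω β : Type} [Fintype Ω] {p : Ω → ℝ} (hp : IsLaw p) {M : ℕ} (hM : 0 < M)
    (s t : Ω → ℕ) (ht : ∀ ω, t ω < M) (W : Ω → β) {e : ℝ}
    (he : Real.log M - e ≤ CH p t (fun ω => (s ω, W ω))) :
    Ex p (fun ω => Real.log ((M : ℝ) / dd (s ω) (t ω))) ≤ 2 * (e + Real.log 6) := by
  have hM' : (0 : ℝ) < M := by exact_mod_cast hM
  have hsM : 0 < √(M : ℝ) := Real.sqrt_pos.mpr hM'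
  have hdd : ∀ x y : ℕ, (0 : ℝ) < dd x y := fun x y => by
    have := one_le_dd x y
    exact_mod_cast this
  have hq : ∀ x y : ℕ, 0 < 1 / √(dd x y : ℝ) / (6 * √(M : ℝ)) := fun x y => by
    have := hdd x y
    positivity
  have h := CH_le_cross hp.nonneg hp.sum_one t (fun ω => (s ω, W ω))
    (fun z y => if y < M then 1 / √(dd z.1 y : ℝ) / (6 * √(M : ℝ)) else 0)
    (fun ω _ => by
      simp only [if_pos (ht ω)]
      exact hq _ _)
    (fun z y => by
      split_ifs
      · exact (hq _ _).le
      · exact le_rfl)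
    (fun ω _ F => by
      rw [← Finset.sum_filter, ← Finset.sum_div, div_le_one (by positivity)]
      refine le_trans ?_ (sum_kernel_le M (s ω))
      refine Finset.sum_le_sum_of_subset_of_nonneg ?_ (fun _ _ _ => by positivity)
      intro y hy
      rw [Finset.mem_range]
      exact (Finset.mem_filter.mp hy).2)
  have h2 : Ex p (fun ω => -Real.log (if t ω < M then 1 / √(dd (s ω) (t ω) : ℝ) / (6 * √(M : ℝ))
      else 0)) = Real.log M + Real.log 6 -
        1 / 2 * Ex p (fun ω => Real.log ((M : ℝ) / dd (s ω) (t ω))) := by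
    have e1 : (fun ω => -Real.log (if t ω < M then 1 / √(dd (s ω) (t ω) : ℝ) / (6 * √(M : ℝ))
        else 0)) = fun ω => (Real.log M + Real.log 6) -
          1 / 2 * Real.log ((M : ℝ) / dd (s ω) (t ω)) := by
      funext ω
      have hd := hdd (s ω) (t ω)
      have hsd : 0 < √(dd (s ω) (t ω) : ℝ) := Real.sqrt_pos.mpr hd
      rw [if_pos (ht ω), Real.log_div (by positivity) (by positivity),
        Real.log_div one_ne_zero hsd.ne', Real.log_one, Real.log_mul (by norm_num) hsM.ne',
        Real.log_sqrt hd.le, Real.log_sqrt hM'.le, Real.log_div hM'.ne' hd.ne']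
      ring
    rw [e1, Ex_sub, Ex_const hp.sum_one, Ex_smul]
  rw [h2] at h
  linarith

/-! ### Copies of the time -/

section Copies

variable {m J : ℕ} (F : Fam m J) (g : ℕ) {κ : Type} (z : F.Ω → κ) (N : ℕ)

/-- The line with its label. -/
def bl (ω : F.Ω) : ((Fin m → ℝ) × (Fin m → ℝ)) × (κ × (ℕ × F.ζ)) := (F.l ω, lab F g z ω)

/-- The law of a sample and `N` copies, conditionally independent given the line and its label. -/
noncomputable def cpy : F.Ω × (Fin N → F.Ω) → ℝ := multi F.p (fun _ : Fin N => bl F g z)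

theorem cpy_law : IsLaw (cpy F g z N) := (mul_thm F.Ω _ N F.p (fun _ => bl F g z) F.isLaw).1

theorem cpy_fst : Marg (cpy F g z N) F.p (fun w => w.1) :=
  (mul_thm F.Ω _ N F.p (fun _ => bl F g z) F.isLaw).2.1

theorem cpy_snd (r : Fin N) : Marg (cpy F g z N) F.p (fun w => w.2 r) :=
  ((mul_thm F.Ω _ N F.p (fun _ => bl F g z) F.isLaw).2.2 r).comp (dbl_snd F.isLaw.nonneg)

theorem cpy_eq {w : F.Ω × (Fin N → F.Ω)} (hw : 0 < cpy F g z N w) (r : Fin N) :
    bl F g z (w.2 r) = bl F g z w.1 ∧ 0 < F.p (w.2 r) := by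
  have h := (MUI.multi_pos F.isLaw.nonneg hw).2 r
  have h2 := (cond_pos_iff F.isLaw.nonneg (bl F g z) (bl F g z w.1) (w.2 r)).mp h
  exact ⟨h2.2, h2.1⟩

/-- The times of the copies. -/
def tau (w : F.Ω × (Fin N → F.Ω)) (r : Fin N) : ℕ := F.T (w.2 r)

theorem tau_window {w : F.Ω × (Fin N → F.Ω)} (hw : 0 < cpy F g z N w) (r : Fin N) :
    tau F N w r / 2 ^ (J - g) = F.T w.1 / 2 ^ (J - g) := by
  have h := (cpy_eq F g z N hw r).1
  simp only [bl, lab, Fam.T1, Prod.mk.injEq] at h
  exact h.2.2.1

/-- The times of the copies have small deficits. -/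
theorem tau_entropy : N * CH F.p F.T (bl F g z) ≤ CH (cpy F g z N) (tau F N) (fun w => w.1) := by
  have h := mui_thm mul_thm F.Ω _ ℕ N F.p (fun _ => bl F g z) F.isLaw (fun _ w => F.T w.2)
  have h1 : ∀ r : Fin N, CH (dbl F.p (bl F g z)) (fun w => F.T w.2) (fun w => w.1) =
      CH F.p F.T (bl F g z) := by
    intro _
    rw [← CH_dbl_2 F.isLaw.nonneg F.T (fun ω : F.Ω => ω)]
    refine CH_congr (dbl_nonneg F.isLaw.nonneg) ?_ ?_ ?_ ?_
    · intro w w' _ _ hh
      simp only [Prod.mk.injEq] at hh
      exact hh.1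
    · intro w w' _ _ hh
      simp only [Prod.mk.injEq] at hh
      exact hh.1
    · intro w w' a b hh
      simp only at hh
      have e1 := dbl_eq F.isLaw.nonneg a
      have e2 := dbl_eq F.isLaw.nonneg b
      simp only [Prod.mk.injEq]
      exact ⟨by rw [← e1, ← e2, hh], hh⟩
    · intro w w' _ _ hh
      simp only [Prod.mk.injEq] at hh
      exact hh.2
  rw [Finset.sum_congr rfl fun r _ => h1 r] at h
  simp only [Finset.sum_const, Finset.card_univ, Fintype.card_fin, nsmul_eq_mul] at h
  exact h

/-- Adding the nodes to the label. -/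
theorem add_nodes {e' : ℝ} (hg : g ≤ J)
    (he' : ((J : ℝ) - g) * Real.log 2 - e' ≤ CH F.p F.T (bl F g z)) :
    CH F.p (F.D J) (lab F g z) ≤ CH (cpy F g z N) (fun w => F.D J w.1)
      (fun w => (tau F N w, lab F g z w.1)) + N * e' := by
  have hq := (cpy_law F g z N).nonneg
  have h0 := (cpy_fst F g z N).CH (F.D J) (lab F g z)
  have h1 := info_symm hq (fun w => F.D J w.1) (tau F N) (fun w => lab F g z w.1)
  have h2 : CH (cpy F g z N) (tau F N) (fun w => lab F g z w.1) ≤
      N * (((J : ℝ) - g) * Real.log 2) := by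
    have h3 := CH_le_card hq (cpy_law F g z N).sum_one (tau F N) (fun w => lab F g z w.1)
      (fun c => Fintype.piFinset fun _ : Fin N =>
        Finset.Ico (c.2.1 * 2 ^ (J - g)) (c.2.1 * 2 ^ (J - g) + 2 ^ (J - g)))
      (fun w hw => by
        rw [Fintype.mem_piFinset]
        intro r
        have h4 := tau_window F g z N hw r
        have h5 := Nat.div_add_mod (tau F N w r) (2 ^ (J - g))
        have h6 := Nat.mod_lt (tau F N w r) (show 0 < 2 ^ (J - g) by positivity)
        rw [Finset.mem_Ico]
        simp only [lab, Fam.T1]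
        rw [← h4, mul_comm (tau F N w r / 2 ^ (J - g)) (2 ^ (J - g))]
        omega)
    refine h3.trans (le_of_eq ?_)
    simp only [Fintype.card_piFinset, Nat.card_Ico, Nat.add_sub_cancel_left, Finset.prod_const,
      Finset.card_univ, Fintype.card_fin, Nat.cast_pow, Nat.cast_ofNat, Real.log_pow]
    rw [Ex_const (cpy_law F g z N).sum_one, Nat.cast_sub hg]
  have h3 : CH (cpy F g z N) (tau F N) (fun w => w.1) ≤ CH (cpy F g z N) (tau F N)
      (fun w => (F.D J w.1, lab F g z w.1)) := by
    refine CH_mono_cond hq ?_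
    intro w w' _ _ hh
    simp only at hh ⊢
    rw [hh]
  have h4 := tau_entropy F g z N
  have h5 : (N : ℝ) * (((J : ℝ) - g) * Real.log 2 - e') ≤ N * CH F.p F.T (bl F g z) :=
    mul_le_mul_of_nonneg_left he' (Nat.cast_nonneg N)
  rw [← h0]
  nlinarith

/-- Energy of two copies. -/
theorem pair_energy {e' : ℝ} (hg : g ≤ J)
    (he' : ((J : ℝ) - g) * Real.log 2 - e' ≤ CH F.p F.T (bl F g z)) {i k : Fin N} (hik : i ≠ k) :
    Ex (cpy F g z N) (fun w => Real.log ((2 : ℝ) ^ (J - g) / dd (tau F N w i) (tau F N w k))) ≤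
      2 * (N * e' + Real.log 6) := by
  classical
  have hq := (cpy_law F g z N).nonneg
  have hsum := (cpy_law F g z N).sum_one
  set M : ℕ := 2 ^ (J - g) with hM
  have hM0 : 0 < M := by positivity
  have hlogM : Real.log (M : ℝ) = ((J : ℝ) - g) * Real.log 2 := by
    rw [hM, Nat.cast_pow, Real.log_pow, Nat.cast_sub hg, Nat.cast_ofNat]
  set σ : F.Ω × (Fin N → F.Ω) → Fin N → ℕ := fun w r => tau F N w r % M with hσ
  have h1 : CH (cpy F g z N) (tau F N) (fun w => w.1) ≤
      CH (cpy F g z N) σ (fun w => w.1) := by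
    refine CH_mono_left hq ?_
    intro w w' a b hh
    simp only [Prod.mk.injEq] at hh
    funext r
    have e1 := tau_window F g z N a r
    have e2 := tau_window F g z N b r
    have e3 := Nat.div_add_mod (tau F N w r) M
    have e4 := Nat.div_add_mod (tau F N w' r) M
    have e5 : tau F N w r % M = tau F N w' r % M := congrFun hh.1 r
    rw [hh.2] at e1
    rw [← e3, ← e4, e5, hM, e1, e2]
  -- all copies but number k
  set ρ : F.Ω × (Fin N → F.Ω) → {r : Fin N // r ≠ k} → ℕ := fun w r => σ w r.1 with hρ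
  have h2 := CH_le_add hq σ ρ (fun w : F.Ω × (Fin N → F.Ω) => w.1)
  have h3 : CH (cpy F g z N) ρ (fun w => w.1) ≤ ((N : ℝ) - 1) * Real.log M := by
    have h4 := CH_le_card hq hsum ρ (fun w : F.Ω × (Fin N → F.Ω) => w.1)
      (fun _ => Fintype.piFinset fun _ : {r : Fin N // r ≠ k} => Finset.range M)
      (fun w _ => by
        rw [Fintype.mem_piFinset]
        intro r
        rw [Finset.mem_range]
        exact Nat.mod_lt _ hM0)
    refine h4.trans (le_of_eq ?_)
    have hcard : Fintype.card {r : Fin N // r ≠ k} = N - 1 := by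
      rw [Fintype.card_subtype_compl, Fintype.card_fin, Fintype.card_subtype_eq]
    have hN : 1 ≤ N := by have := k.2; omega
    simp only [Fintype.card_piFinset, Finset.card_range, Finset.prod_const, Finset.card_univ,
      hcard, Nat.cast_pow, Real.log_pow]
    rw [Ex_const hsum, Nat.cast_sub hN, Nat.cast_one]
  have h5 : CH (cpy F g z N) σ (fun w => (ρ w, w.1)) ≤
      CH (cpy F g z N) (fun w => σ w k) (fun w => (σ w i, w.1)) := by
    refine le_trans ?_ (CH_mono_cond hq (X := fun w => σ w k) (W' := fun w => (ρ w, w.1)) ?_)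
    · refine CH_mono_left hq ?_
      intro w w' _ _ hh
      simp only [Prod.mk.injEq] at hh
      funext r
      by_cases hr : r = k
      · rw [hr]; exact hh.1
      · exact congrFun hh.2.1 ⟨r, hr⟩
    · intro w w' _ _ hh
      simp only [Prod.mk.injEq] at hh
      have := congrFun hh.1 ⟨i, hik⟩
      simp only [hρ] at this
      simp only [Prod.mk.injEq]
      exact ⟨this, hh.2⟩
  have h6 := tau_entropy F g z N
  have h7 : (N : ℝ) * (((J : ℝ) - g) * Real.log 2 - e') ≤ N * CH F.p F.T (bl F g z) :=
    mul_le_mul_of_nonneg_left he' (Nat.cast_nonneg N)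
  have h8 := energy_le (cpy_law F g z N) hM0 (fun w => σ w i) (fun w => σ w k)
    (fun w => Nat.mod_lt _ hM0) (fun w => w.1) (e := N * e') (by
      rw [hlogM] at h3 ⊢
      linarith)
  refine le_trans (le_of_eq ?_) h8
  unfold Ex
  refine Finset.sum_congr rfl fun w _ => ?_
  rcases (hq w).eq_or_lt with hw | hw
  · rw [← hw, zero_mul, zero_mul]
  congr 2
  have e1 := tau_window F g z N hw i
  have e2 := tau_window F g z N hw k
  have e3 := Nat.div_add_mod (tau F N w i) M
  have e4 := Nat.div_add_mod (tau F N w k) M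
  rw [← hM] at e1 e2
  rw [e1] at e3
  rw [e2] at e4
  have e5 : dd (tau F N w i) (tau F N w k) = dd (σ w i) (σ w k) := by
    simp only [hσ]
    unfold dd
    omega
  simp only
  rw [e5, hM]
  push_cast
  rfl

end Copies

end Pool.KEND
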