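import Pool.Agent.H9.KA.Defs

/-!
# The end of the argument: entropy part

A visible label `z` of the lines which is used on windows of length `2 ^ (-g)`: the violation of
the family is at most the violation given the label.
-/

set_option autoImplicit false

namespace Pool.KEND

open Finset Real
open Pool.Agent.H49.Ent Pool.Agent.H32.Dense Pool.STK Pool.KA

variable {m J : ℕ}

theorem det_of_fun {Ω S T : Type*} (p : Ω → ℝ) {X : Ω → S} {Y : Ω → T} (f : S → T)
    (h : ∀ ω, Y ω = f (X ω)) : Det p X Y := by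
  intro ω ω' _ _ hh
  rw [h ω, h ω', hh]

/-- Symmetry of mutual information. -/
theorem info_symm {Ω S T U : Type*} [Fintype Ω] {p : Ω → ℝ} (hp : ∀ ω, 0 ≤ p ω) (X : Ω → S)
    (Y : Ω → T) (Z : Ω → U) :
    CH p X Z - CH p X (fun ω => (Y ω, Z ω)) = CH p Y Z - CH p Y (fun ω => (X ω, Z ω)) := by
  have h1 := CH_chain hp X Y Z
  have h2 := CH_chain hp Y X Z
  have h3 : CH p (fun ω => (X ω, Y ω)) Z = CH p (fun ω => (Y ω, X ω)) Z := by
    refine CH_congr hp ?_ ?_ (fun _ _ _ _ h => h) (fun _ _ _ _ h => h)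
    · intro ω ω' _ _ h
      simp only [Prod.mk.injEq] at h ⊢
      tauto
    · intro ω ω' _ _ h
      simp only [Prod.mk.injEq] at h ⊢
      tauto
  linarith

/-- Data processing for mutual information given `Z`. -/
theorem info_mono {Ω S T U V : Type*} [Fintype Ω] {p : Ω → ℝ} (hp : ∀ ω, 0 ≤ p ω) (X : Ω → S)
    {Y : Ω → T} {Y' : Ω → V} {Z : Ω → U} (h : Det p (fun ω => (Y' ω, Z ω)) Y) :
    CH p Y Z - CH p Y (fun ω => (X ω, Z ω)) ≤ CH p Y' Z - CH p Y' (fun ω => (X ω, Z ω)) := by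
  rw [← info_symm hp X Y Z, ← info_symm hp X Y' Z]
  have : CH p X (fun ω => (Y' ω, Z ω)) ≤ CH p X (fun ω => (Y ω, Z ω)) := by
    refine CH_mono_cond hp ?_
    intro ω ω' a b hh
    exact Prod.ext (h ω ω' a b hh) (Prod.ext_iff.mp hh).2
  linarith

/-- Time with a full range has entropy at most `J log 2`. -/
theorem CH_T_le (F : Fam m J) {U : Type*} (Z : F.Ω → U) : CH F.p F.T Z ≤ J * Real.log 2 := by
  have h := CH_le_card F.isLaw.nonneg F.isLaw.sum_one F.T Z (fun _ => Finset.range (2 ^ J))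
    (fun ω _ => Finset.mem_range.mpr (F.tim ω))
  refine h.trans (le_of_eq ?_)
  simp only [Finset.card_range, Nat.cast_pow, Nat.cast_ofNat, Real.log_pow]
  exact Ex_const F.isLaw.sum_one _

/-- The window, the label, and the side information. -/
def lab (F : Fam m J) (g : ℕ) {κ : Type} (z : F.Ω → κ) (ω : F.Ω) : κ × (ℕ × F.ζ) :=
  (z ω, (F.T1 g ω, F.Z ω))

/-- **Entropy part of the end.**  `e` is the deficit of the time, `s` the invisible part of the
label. -/
theorem V_le_label (F : Fam m J) (g : ℕ) {κ : Type} (z : F.Ω → κ) {e s : ℝ} (he : F.Tm e)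
    (hs : CH F.p z (fun ω => (F.X J ω, F.W ω)) ≤ CH F.p z (fun ω => (F.l ω, F.W ω)) + s) :
    F.V J ≤ CH F.p (F.D J) (lab F g z) - CH F.p (F.X J) (fun ω => (z ω, F.W ω)) + e + s := by
  have hp := F.isLaw.nonneg
  set Y : F.Ω → κ × ℕ := fun ω => (z ω, F.T1 g ω) with hY
  set Y' : F.Ω → κ × ℕ := fun ω => (z ω, F.T ω) with hY'
  -- the label given the direction, and given the line
  have h1 : CH F.p (F.D J) F.Z - CH F.p (F.D J) (lab F g z) =
      CH F.p Y F.Z - CH F.p Y (fun ω => (F.D J ω, F.Z ω)) := by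
    rw [← info_symm hp (F.D J) Y F.Z]
    congr 1
    refine CH_congr hp ?_ ?_ ?_ ?_
    · intro ω ω' _ _ h
      exact (Prod.ext_iff.mp h).1
    · intro ω ω' _ _ h
      exact (Prod.ext_iff.mp h).1
    · intro ω ω' _ _ h
      simp only [lab, Prod.mk.injEq, hY] at h ⊢
      tauto
    · intro ω ω' _ _ h
      simp only [lab, Prod.mk.injEq, hY] at h ⊢
      tauto
  have h2 : CH F.p Y (fun ω => (F.l ω, F.Z ω)) ≤ CH F.p Y (fun ω => (F.D J ω, F.Z ω)) := by
    refine CH_mono_cond hp ?_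
    refine det_of_fun F.p (fun a => (fl J a.1.2, a.2)) fun ω => rfl
  have h3 : CH F.p Y F.Z - CH F.p Y (fun ω => (F.l ω, F.Z ω)) ≤
      CH F.p Y' F.Z - CH F.p Y' (fun ω => (F.l ω, F.Z ω)) := by
    refine info_mono hp F.l ?_
    refine det_of_fun F.p (fun a => (a.1.1, a.1.2 / 2 ^ (J - g))) fun ω => rfl
  have h4 : CH F.p Y' F.Z = CH F.p F.T F.Z + CH F.p z F.W := CH_chain hp z F.T F.Z
  have h5 : CH F.p Y' (fun ω => (F.l ω, F.Z ω)) = CH F.p F.T (fun ω => (F.l ω, F.Z ω)) +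
      CH F.p z (fun ω => (F.l ω, F.W ω)) := by
    have := CH_chain hp z F.T (fun ω => (F.l ω, F.Z ω))
    rw [this]
    congr 1
    refine CH_congr hp ?_ ?_ ?_ ?_
    · intro ω ω' _ _ h
      exact (Prod.ext_iff.mp h).1
    · intro ω ω' _ _ h
      exact (Prod.ext_iff.mp h).1
    · intro ω ω' _ _ h
      simp only [Fam.W, Prod.mk.injEq] at h ⊢
      tauto
    · intro ω ω' _ _ h
      simp only [Fam.W, Prod.mk.injEq] at h ⊢
      tauto
  have h6 := CH_T_le F F.Z
  have h7 : (J : ℝ) * Real.log 2 - e ≤ CH F.p F.T (fun ω => (F.l ω, F.Z ω)) := he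
  have h8 : CH F.p z F.W - CH F.p z (fun ω => (F.X J ω, F.W ω)) =
      CH F.p (F.X J) F.W - CH F.p (F.X J) (fun ω => (z ω, F.W ω)) := by
    rw [info_symm hp z (F.X J) F.W]
  have h9 : F.V J = CH F.p (F.D J) F.Z - CH F.p (F.X J) F.W := by
    unfold Fam.V
    ring
  rw [h9]
  linarith

end Pool.KEND
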