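import Pool.Agent.H84.KEND.Ent
import Pool.Agent.H50.PW.Cover

/-!
# The end of the argument: algebraic labels

Number of directions (rounded at scale `2 ^ (-J)`) of the lines with an algebraic label, by the
polynomial Wolff axiom, and the resulting bound for the violation.
-/

set_option autoImplicit false

namespace Pool.KEND

open Finset Real MeasureTheory MvPolynomial
open Pool.Agent.H49.Ent Pool.Agent.H32.Dense Pool.STK Pool.KA Pool.Agent.H50.PW

/-- The directions `Ds` belong to an algebraic family with auxiliary variables `ν` and degree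
`dg`, whose sets swept at `m + 1` times (with weights at most `w`) have volume at most
`R 2 ^ (- m J)`. -/
def AlgAt (ν : Type) [Fintype ν] [DecidableEq ν] (m dg J : ℕ) (w R : ℝ)
    (Ds : Set (Fin m → ℝ)) : Prop :=
  ∃ (P : MvPolynomial (Fin m ⊕ ν) ℝ) (U : Fin m → MvPolynomial ν ℝ)
    (t : Fin (Fintype.card (Fin m) + 1) → ℝ) (S : Set (Fin m → ℝ)),
    P.totalDegree ≤ dg ∧ (∀ x, 0 ≤ eval x P) ∧ (∀ i, (U i).totalDegree ≤ dg) ∧
    Function.Injective t ∧ MeasurableSet S ∧ (∀ i, wt t i ≤ w) ∧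
    (∀ D ∈ Ds, ∀ D' : Fin m → ℝ, dist D' D < 1 / 2 ^ J / 2 →
      D' ∈ S ∧ ∃ A : ν → ℝ, ‖A‖ ≤ 1 ∧ eval (Sum.elim D' A) P ≤ 1) ∧
    ∀ i, volume (swept P U S (t i)) ≤ ENNReal.ofReal (R / 2 ^ (m * J))

theorem dist_of_parity {m J : ℕ} {D D' : Fin m → ℝ} (hne : fl J D ≠ fl J D')
    (hpar : ∀ i, fl J D i % 2 = fl J D' i % 2) : (1 : ℝ) / 2 ^ J ≤ dist D D' := by
  obtain ⟨i, hi⟩ := Function.ne_iff.mp hne
  have h2 : (0 : ℝ) < 2 ^ J := by positivity
  have h1 := hpar i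
  have hD : (fl J D i : ℝ) ≤ 2 ^ J * D i ∧ 2 ^ J * D i < fl J D i + 1 :=
    ⟨Int.floor_le _, Int.lt_floor_add_one _⟩
  have hD' : (fl J D' i : ℝ) ≤ 2 ^ J * D' i ∧ 2 ^ J * D' i < fl J D' i + 1 :=
    ⟨Int.floor_le _, Int.lt_floor_add_one _⟩
  have h3 : 1 ≤ |2 ^ J * D i - 2 ^ J * D' i| := by
    rcases lt_or_gt_of_ne hi with h | h
    · have h4 : fl J D i + 2 ≤ fl J D' i := by omega
      have h5 : (fl J D i : ℝ) + 2 ≤ fl J D' i := by exact_mod_cast h4
      rw [abs_sub_comm]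
      refine le_trans ?_ (le_abs_self _)
      linarith [hD.2, hD'.1]
    · have h4 : fl J D' i + 2 ≤ fl J D i := by omega
      have h5 : (fl J D' i : ℝ) + 2 ≤ fl J D i := by exact_mod_cast h4
      refine le_trans ?_ (le_abs_self _)
      linarith [hD'.2, hD.1]
  have h4 : |2 ^ J * D i - 2 ^ J * D' i| = 2 ^ J * |D i - D' i| := by
    rw [← mul_sub, abs_mul, abs_of_pos h2]
  have h5 : |D i - D' i| ≤ dist D D' := by
    rw [← Real.dist_eq]
    exact dist_le_pi_dist D D' i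
  rw [div_le_iff₀ h2]
  nlinarith [h3, h4, h5]

theorem card_par_le {ν : Type} [Fintype ν] [DecidableEq ν] {m dg J : ℕ} (hd : 1 ≤ dg) {w R : ℝ}
    (hw : 0 ≤ w) {Ds : Set (Fin m → ℝ)} (h : AlgAt ν m dg J w R Ds) (K : Finset (Fin m → ℤ))
    (hK : ∀ k ∈ K, ∃ D ∈ Ds, fl J D = k) (r : Fin m → ℤ) (hr : ∀ k ∈ K, ∀ i, k i % 2 = r i)
    (hne : K.Nonempty) :
    (K.card : ℝ) ≤ (dg + 1) ^ (m + Fintype.card ν) * (m + 1) * w * R := by
  classical
  obtain ⟨P, U, t, S, hP, hP0, hU, ht, hS, hwt, hD, hvol⟩ := h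
  choose! f hf1 hf2 using hK
  have hinj : Set.InjOn f K := by
    intro k hk k' hk' hh
    rw [← hf2 k hk, ← hf2 k' hk', hh]
  have hδ : (0 : ℝ) < 1 / 2 ^ J := by positivity
  have h1 := card_mul_le_volume (K.image f) hδ (by
    intro D hD D' hD' hne
    obtain ⟨k, hk, rfl⟩ := Finset.mem_image.mp hD
    obtain ⟨k', hk', rfl⟩ := Finset.mem_image.mp hD'
    refine dist_of_parity ?_ ?_
    · rw [hf2 k hk, hf2 k' hk']
      intro hh
      exact hne (by rw [hh])
    · intro i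
      rw [hf2 k hk, hf2 k' hk', hr k hk i, hr k' hk' i])
    {D ∈ S | ∃ A : ν → ℝ, ‖A‖ ≤ 1 ∧ eval (Sum.elim D A) P ≤ 1} (by
    intro D hDm D' hD'
    obtain ⟨k, hk, rfl⟩ := Finset.mem_image.mp hDm
    rw [Metric.mem_ball] at hD'
    exact hD (f k) (hf1 k hk) D' hD')
  rw [Finset.card_image_of_injOn hinj] at h1
  have h2 := volume_directions_le hd P hP hP0 U hU t ht S hS
  have h3 : ∑ i, ENNReal.ofReal (wt t i) * volume (swept P U S (t i)) ≤
      ((m + 1 : ℕ) : ENNReal) * (ENNReal.ofReal w * ENNReal.ofReal (R / 2 ^ (m * J))) := by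
    refine (Finset.sum_le_card_nsmul _ _ _ fun i _ =>
      mul_le_mul' (ENNReal.ofReal_le_ofReal (hwt i)) (hvol i)).trans (le_of_eq ?_)
    rw [Finset.card_univ, Fintype.card_fin, Fintype.card_fin, nsmul_eq_mul]
  have h4 := h1.trans (h2.trans (mul_le_mul_right h3 _))
  simp only [Fintype.card_fin] at h4
  have hR : 0 < R := by
    by_contra hcon
    have hle : R / 2 ^ (m * J) ≤ 0 := div_nonpos_of_nonpos_of_nonneg (not_lt.mp hcon)
      (by positivity)
    rw [ENNReal.ofReal_of_nonpos hle, mul_zero, mul_zero, mul_zero] at h4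
    have h5 : (K.card : ENNReal) ≠ 0 := by
      exact_mod_cast hne.card_pos.ne'
    have h6 : ENNReal.ofReal (1 / 2 ^ J) ^ m ≠ 0 :=
      pow_ne_zero _ (ENNReal.ofReal_pos.mpr hδ).ne'
    exact (mul_ne_zero h5 h6) (le_antisymm h4 bot_le)
  have h5 : (K.card : ENNReal) * ENNReal.ofReal (1 / 2 ^ J) ^ m =
      ENNReal.ofReal (K.card * (1 / 2 ^ J) ^ m) := by
    rw [ENNReal.ofReal_mul (by positivity), ENNReal.ofReal_pow hδ.le, ENNReal.ofReal_natCast]
  have h6 : (((dg + 1) ^ (m + Fintype.card ν) : ℕ) : ENNReal) *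
      (((m + 1 : ℕ) : ENNReal) * (ENNReal.ofReal w * ENNReal.ofReal (R / 2 ^ (m * J)))) =
      ENNReal.ofReal (((dg + 1) ^ (m + Fintype.card ν) : ℕ) *
        (((m + 1 : ℕ) : ℝ) * (w * (R / 2 ^ (m * J))))) := by
    rw [ENNReal.ofReal_mul (by positivity), ENNReal.ofReal_mul (by positivity),
      ENNReal.ofReal_mul hw, ENNReal.ofReal_natCast, ENNReal.ofReal_natCast]
  rw [h5, h6] at h4
  have h7 : (0 : ℝ) ≤ ((dg + 1) ^ (m + Fintype.card ν) : ℕ) *
      (((m + 1 : ℕ) : ℝ) * (w * (R / 2 ^ (m * J)))) := by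
    positivity
  have h8 := (ENNReal.ofReal_le_ofReal_iff h7).mp h4
  have h9 : (0 : ℝ) < (2 ^ J) ^ m := by positivity
  have h10 : (K.card : ℝ) * (1 / 2 ^ J) ^ m = K.card / (2 ^ J) ^ m := by
    rw [one_div, inv_pow, div_eq_mul_inv]
  have h11 : ((2 : ℝ) ^ (m * J)) = (2 ^ J) ^ m := by rw [← pow_mul, mul_comm]
  rw [h10, h11] at h8
  rw [div_le_iff₀ h9] at h8
  refine h8.trans (le_of_eq ?_)
  push_cast
  field_simp

/-- Number of rounded directions. -/
theorem card_cells_le {ν : Type} [Fintype ν] [DecidableEq ν] {m dg J : ℕ} (hd : 1 ≤ dg) {w R : ℝ}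
    (hw : 0 ≤ w) {Ds : Set (Fin m → ℝ)} (h : AlgAt ν m dg J w R Ds) (K : Finset (Fin m → ℤ))
    (hK : ∀ k ∈ K, ∃ D ∈ Ds, fl J D = k) (hne : K.Nonempty) :
    (K.card : ℝ) ≤ 2 ^ m * ((dg + 1) ^ (m + Fintype.card ν) * (m + 1) * w * R) := by
  classical
  set par : (Fin m → ℤ) → Fin m → ℤ := fun k i => k i % 2 with hpar
  set T : Finset (Fin m → ℤ) := Fintype.piFinset fun _ => ({0, 1} : Finset ℤ) with hT
  have hmaps : ∀ k ∈ K, par k ∈ T := by
    intro k _
    rw [hT, Fintype.mem_piFinset]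
    intro i
    rw [Finset.mem_insert, Finset.mem_singleton, hpar]
    simp only
    omega
  have hTcard : T.card = 2 ^ m := by
    rw [hT, Fintype.card_piFinset]
    simp
  set B : ℝ := (dg + 1) ^ (m + Fintype.card ν) * (m + 1) * w * R with hB
  have hfib : ∀ r ∈ T, ((K.filter fun k => par k = r).card : ℝ) ≤ B := by
    intro r _
    rcases (K.filter fun k => par k = r).eq_empty_or_nonempty with h0 | h0
    · rw [h0]
      simp only [Finset.card_empty, Nat.cast_zero]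
      obtain ⟨k, hk⟩ := hne
      have h1 := card_par_le hd hw h {k} (fun k' hk' => by
        rw [Finset.mem_singleton] at hk'
        subst hk'
        exact hK _ hk) (par k) (fun k' hk' i => by
        rw [Finset.mem_singleton] at hk'
        subst hk'
        rfl) (Finset.singleton_nonempty k)
      simp only [Finset.card_singleton, Nat.cast_one] at h1
      linarith
    · refine card_par_le hd hw h _ (fun k hk => hK k (Finset.mem_filter.mp hk).1) r ?_ h0
      intro k hk i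
      have := (Finset.mem_filter.mp hk).2
      rw [← this]
  have hcard : (K.card : ℝ) = ∑ r ∈ T, ((K.filter fun k => par k = r).card : ℝ) := by
    rw [Finset.card_eq_sum_card_fiberwise hmaps]
    push_cast
    rfl
  rw [hcard]
  calc ∑ r ∈ T, ((K.filter fun k => par k = r).card : ℝ) ≤ ∑ _r ∈ T, B :=
        Finset.sum_le_sum hfib
    _ = 2 ^ m * B := by rw [Finset.sum_const, nsmul_eq_mul, hTcard]; push_cast; ring

variable {m J : ℕ}

/-- Entropy of the rounded directions given an algebraic label. -/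
theorem CH_dir_le {ν : Type} [Fintype ν] [DecidableEq ν] {dg : ℕ} (hd : 1 ≤ dg) (F : Fam m J)
    {β : Type} (c : F.Ω → β) {w : ℝ} (hw : 0 < w) (R : β → ℝ)
    (h : ∀ ω₀, 0 < F.p ω₀ → AlgAt ν m dg J w (R (c ω₀))
      {D | ∃ ω, 0 < F.p ω ∧ c ω = c ω₀ ∧ D = F.d ω}) :
    CH F.p (F.D J) c ≤ Ex F.p (fun ω => Real.log (R (c ω))) + Real.log w +
      Real.log (2 ^ m * ((dg + 1) ^ (m + Fintype.card ν) * (m + 1))) := by
  classical
  set Fc : β → Finset (Fin m → ℤ) := fun b =>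
    (Finset.univ.filter fun ω => 0 < F.p ω ∧ c ω = b).image (F.D J) with hFc
  have hmem : ∀ ω, 0 < F.p ω → F.D J ω ∈ Fc (c ω) := by
    intro ω hω
    exact Finset.mem_image.mpr ⟨ω, Finset.mem_filter.mpr ⟨Finset.mem_univ _, hω, rfl⟩, rfl⟩
  have hcard : ∀ ω, 0 < F.p ω → ((Fc (c ω)).card : ℝ) ≤
      2 ^ m * ((dg + 1) ^ (m + Fintype.card ν) * (m + 1) * w * R (c ω)) := by
    intro ω hω
    refine card_cells_le hd hw.le (h ω hω) _ ?_ ⟨_, hmem ω hω⟩
    intro k hk
    obtain ⟨ω', hω', rfl⟩ := Finset.mem_image.mp hk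
    obtain ⟨_, h1, h2⟩ := Finset.mem_filter.mp hω'
    exact ⟨F.d ω', ⟨ω', h1, h2, rfl⟩, rfl⟩
  refine (CH_le_card F.isLaw.nonneg F.isLaw.sum_one (F.D J) c Fc hmem).trans ?_
  have h1 : Ex F.p (fun ω => Real.log ((Fc (c ω)).card)) ≤ Ex F.p (fun ω =>
      Real.log (R (c ω)) + (Real.log w + Real.log (2 ^ m * ((dg + 1) ^ (m + Fintype.card ν) * (m + 1))))) := by
    refine Ex_mono F.isLaw.nonneg fun ω hω => ?_
    have h2 := hcard ω hω
    have h3 : (0 : ℝ) < (Fc (c ω)).card := by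
      exact_mod_cast Finset.card_pos.mpr ⟨_, hmem ω hω⟩
    have hK : (0 : ℝ) < 2 ^ m * ((dg + 1) ^ (m + Fintype.card ν) * (m + 1)) := by positivity
    have hR : 0 < R (c ω) := by
      by_contra hcon
      have h4 : 2 ^ m * ((dg + 1) ^ (m + Fintype.card ν) * (m + 1) * w * R (c ω)) ≤ 0 := by
        have h5 : (0 : ℝ) ≤ 2 ^ m * ((dg + 1) ^ (m + Fintype.card ν) * (m + 1) * w) := by positivity
        have h6 := mul_nonpos_of_nonneg_of_nonpos h5 (not_lt.mp hcon)
        linarith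
      linarith
    calc Real.log ((Fc (c ω)).card) ≤
        Real.log (2 ^ m * ((dg + 1) ^ (m + Fintype.card ν) * (m + 1) * w * R (c ω))) := Real.log_le_log h3 h2
      _ = Real.log (R (c ω) * (w * (2 ^ m * ((dg + 1) ^ (m + Fintype.card ν) * (m + 1))))) := by
          congr 1; ring
      _ = _ := by rw [Real.log_mul hR.ne' (by positivity), Real.log_mul hw.ne' hK.ne']
  refine h1.trans (le_of_eq ?_)
  rw [Ex_add, Ex_const F.isLaw.sum_one, add_assoc]

/-- **The end.** A family with a visible label (invisible part `s`) which is algebraic (windows of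
length `2 ^ (-g)` enter through the weight `w`, typically `C 2 ^ (m g)`) and full up to `τ` has a
violation at most `log w + τ + s + e + C`. -/
theorem end_thm {ν : Type} [Fintype ν] [DecidableEq ν] {dg : ℕ} (hd : 1 ≤ dg) (F : Fam m J)
    (g : ℕ) {κ : Type} (z : F.Ω → κ)
    {e s τ w : ℝ} (hw : 0 < w) (R : κ × (ℕ × F.ζ) → ℝ) (he : F.Tm e)
    (hs : CH F.p z (fun ω => (F.X J ω, F.W ω)) ≤ CH F.p z (fun ω => (F.l ω, F.W ω)) + s)
    (hf : Ex F.p (fun ω => Real.log (R (lab F g z ω))) ≤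
      CH F.p (F.X J) (fun ω => (z ω, F.W ω)) + τ)
    (h : ∀ ω₀, 0 < F.p ω₀ → AlgAt ν m dg J w (R (lab F g z ω₀))
      {D | ∃ ω, 0 < F.p ω ∧ lab F g z ω = lab F g z ω₀ ∧ D = F.d ω}) :
    F.V J ≤ Real.log w + τ + s + e + Real.log (2 ^ m * ((dg + 1) ^ (m + Fintype.card ν) * (m + 1))) := by
  have h1 := V_le_label F g z he hs
  have h2 := CH_dir_le hd F (lab F g z) hw R h
  linarith

end Pool.KEND
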