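import Pool.Agent.H84.KEND.Node

/-!
# The end of the argument: implicit labels

A family with a visible and full label, given by implicit polynomial equations, has a small
violation. The equations are only needed at the times which occur for the line (not at fixed
times), and only for most pairs of line and time.
-/

set_option autoImplicit false

namespace Pool.KEND

open Finset Real MeasureTheory MvPolynomial
open Pool.Agent.H49.Ent Pool.Agent.H32.Dense Pool.STK Pool.KA Pool.Agent.H50.PW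

variable {m J : ℕ}

/-- Trivial bound for the number of rounded directions. -/
theorem card_dir_le (F : Fam m J) (K : Finset (Fin m → ℤ)) (hK : ∀ k ∈ K, ∃ ω, F.D J ω = k) :
    (K.card : ℝ) ≤ (2 : ℝ) ^ (m * (J + 2)) := by
  classical
  have h1 : K ⊆ Fintype.piFinset fun _ : Fin m => Finset.Icc (-(2 ^ J) : ℤ) (2 ^ J) := by
    intro k hk
    obtain ⟨ω, rfl⟩ := hK k hk
    rw [Fintype.mem_piFinset]
    intro i
    have h2 := abs_le.mp (F.dir ω i)
    have h3 : (0 : ℝ) < 2 ^ J := by positivity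
    rw [Finset.mem_Icc]
    show -(2 ^ J) ≤ ⌊(2 : ℝ) ^ J * F.d ω i⌋ ∧ ⌊(2 : ℝ) ^ J * F.d ω i⌋ ≤ 2 ^ J
    constructor
    · rw [Int.le_floor]
      push_cast
      nlinarith only [h2, h3]
    · have h4 : (⌊(2 : ℝ) ^ J * F.d ω i⌋ : ℝ) ≤ 2 ^ J := (Int.floor_le _).trans (by nlinarith only [h2, h3])
      exact_mod_cast h4
  have h2 : K.card ≤ (2 ^ (J + 2)) ^ m := by
    refine (Finset.card_le_card h1).trans ?_
    rw [Fintype.card_piFinset, Finset.prod_const, Finset.card_univ, Fintype.card_fin]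
    refine Nat.pow_le_pow_left ?_ m
    rw [Int.card_Icc]
    have h3 : ((2 : ℤ) ^ J + 1 - -(2 ^ J)) = ((2 ^ (J + 1) + 1 : ℕ) : ℤ) := by
      push_cast
      ring
    rw [h3, Int.toNat_natCast]
    have h4 : 1 ≤ 2 ^ J := Nat.one_le_two_pow
    rw [pow_succ, pow_add]
    omega
  calc (K.card : ℝ) ≤ (((2 ^ (J + 2)) ^ m : ℕ) : ℝ) := by exact_mod_cast h2
    _ = (2 : ℝ) ^ (m * (J + 2)) := by
        push_cast
        rw [← pow_mul, mul_comm]

theorem one_le_prod_real {ι : Type*} (s : Finset ι) (f : ι → ℝ) (h : ∀ i, 1 ≤ f i) :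
    1 ≤ ∏ i ∈ s, f i := by
  refine Finset.prod_induction f (fun x => 1 ≤ x) (fun a b ha hb => ?_) le_rfl (fun i _ => h i)
  nlinarith only [ha, hb]

/-- Each factor of the weight. -/
noncomputable def ft (g J : ℕ) (x y : ℕ) : ℝ := (2 : ℝ) ^ (J - g) / dd x y

theorem one_le_ft {g J x y : ℕ} (h : x / 2 ^ (J - g) = y / 2 ^ (J - g)) : 1 ≤ ft g J x y := by
  unfold ft
  have h0 := one_le_dd x y
  have h1 : (0 : ℝ) < dd x y := by exact_mod_cast h0
  rw [le_div_iff₀ h1, one_mul]
  have h2 : dd x y ≤ 2 ^ (J - g) := by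
    have e1 := Nat.div_add_mod x (2 ^ (J - g))
    have e2 := Nat.div_add_mod y (2 ^ (J - g))
    have e3 := Nat.mod_lt x (show 0 < 2 ^ (J - g) by positivity)
    have e4 := Nat.mod_lt y (show 0 < 2 ^ (J - g) by positivity)
    rw [h] at e1
    have e5 : 1 ≤ 2 ^ (J - g) := Nat.one_le_two_pow
    unfold dd
    omega
  exact_mod_cast h2

/-- The excess weight of the nodes. -/
noncomputable def WT (g J : ℕ) {N : ℕ} (τ : Fin N → ℕ) : ℝ :=
  ∏ a, ∏ b ∈ Finset.univ.erase a, ft g J (τ a) (τ b)

theorem one_le_WT {g J N : ℕ} {τ : Fin N → ℕ}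
    (h : ∀ a b, τ a / 2 ^ (J - g) = τ b / 2 ^ (J - g)) : 1 ≤ WT g J τ := by
  unfold WT
  exact one_le_prod_real _ _ fun a => one_le_prod_real _ _ fun b => one_le_ft (h a b)

theorem wt_le_WT {g N : ℕ} (hg : g ≤ J) {τ : Fin N → ℕ} (hinj : Function.Injective τ)
    (h : ∀ a b, τ a / 2 ^ (J - g) = τ b / 2 ^ (J - g)) (i : Fin N) :
    wt (fun r => (τ r : ℝ) / 2 ^ J) i ≤ (2 : ℝ) ^ (g * (N - 1)) * WT g J τ := by
  have h2 : (0 : ℝ) < 2 ^ J := by positivity
  have e1 : wt (fun r => (τ r : ℝ) / 2 ^ J) i =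
      ∏ b ∈ Finset.univ.erase i, ((2 : ℝ) ^ g * ft g J (τ i) (τ b)) := by
    unfold wt
    rw [Finset.abs_prod, ← Finset.prod_inv_distrib]
    refine Finset.prod_congr rfl fun b hb => ?_
    have hne : b ≠ i := (Finset.mem_erase.mp hb).1
    have hne' : τ b ≠ τ i := fun hh => hne (hinj hh)
    have e2 : |(τ i : ℝ) / 2 ^ J - (τ b : ℝ) / 2 ^ J| = (dd (τ i) (τ b) : ℝ) / 2 ^ J := by
      rw [← sub_div, abs_div, abs_of_pos h2]
      congr 1
      rcases lt_or_gt_of_ne hne' with hlt | hlt
      · have e3 : dd (τ i) (τ b) = τ i - τ b := by unfold dd; omega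
        rw [e3, Nat.cast_sub hlt.le, abs_of_nonneg]
        have : (τ b : ℝ) ≤ τ i := by exact_mod_cast hlt.le
        linarith only [this]
      · have e3 : dd (τ i) (τ b) = τ b - τ i := by unfold dd; omega
        rw [e3, Nat.cast_sub hlt.le, abs_of_nonpos]
        · ring
        · have : (τ i : ℝ) ≤ τ b := by exact_mod_cast hlt.le
          linarith only [this]
    rw [e2]
    unfold ft
    have h0 := one_le_dd (τ i) (τ b)
    have h1 : (0 : ℝ) < dd (τ i) (τ b) := by exact_mod_cast h0
    rw [inv_div, mul_div_assoc', ← pow_add, Nat.add_sub_cancel' hg]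
  rw [e1, Finset.prod_mul_distrib, Finset.prod_const, Finset.card_erase_of_mem (Finset.mem_univ i),
    Finset.card_univ, Fintype.card_fin, ← pow_mul]
  refine mul_le_mul_of_nonneg_left ?_ (by positivity)
  unfold WT
  rw [← Finset.mul_prod_erase Finset.univ _ (Finset.mem_univ i)]
  have h3 : (0 : ℝ) ≤ ∏ b ∈ Finset.univ.erase i, ft g J (τ i) (τ b) :=
    zero_le_one.trans (one_le_prod_real _ _ fun b => one_le_ft (h i b))
  refine le_mul_of_one_le_right h3 ?_
  exact one_le_prod_real _ _ fun a => one_le_prod_real _ _ fun b => one_le_ft (h a b)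

theorem log_WT {g N : ℕ} {τ : Fin N → ℕ}
    (h : ∀ a b, τ a / 2 ^ (J - g) = τ b / 2 ^ (J - g)) :
    Real.log (WT g J τ) = ∑ a, ∑ b ∈ Finset.univ.erase a, Real.log (ft g J (τ a) (τ b)) := by
  unfold WT
  rw [Real.log_prod]
  · refine Finset.sum_congr rfl fun a _ => ?_
    rw [Real.log_prod]
    intro b _
    exact (zero_lt_one.trans_le (one_le_ft (h a b))).ne'
  · intro a _
    exact (zero_lt_one.trans_le (one_le_prod_real _ _ fun b => one_le_ft (h a b))).ne'

/-- The constant in the count. -/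
noncomputable def KC (m D : ℕ) : ℝ :=
  2 ^ m * (((2 * (m * D + D + 1) : ℕ) + 1) ^ (m + Fintype.card (Aux m)) * (m + 1))

theorem one_le_KC (m D : ℕ) : 1 ≤ KC m D := by
  unfold KC
  have h1 : (1 : ℝ) ≤ 2 ^ m := one_le_pow₀ (by norm_num)
  have h2 : (1 : ℝ) ≤ (((2 * (m * D + D + 1) : ℕ) : ℝ) + 1) ^ (m + Fintype.card (Aux m)) :=
    one_le_pow₀ (by
      have : (0 : ℝ) ≤ ((2 * (m * D + D + 1) : ℕ) : ℝ) := Nat.cast_nonneg _
      linarith only)
  have h3 : (1 : ℝ) ≤ m + 1 := by
    have : (0 : ℝ) ≤ m := Nat.cast_nonneg m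
    linarith only
  have h4 : (1 : ℝ) ≤ (((2 * (m * D + D + 1) : ℕ) : ℝ) + 1) ^ (m + Fintype.card (Aux m)) *
      (m + 1) := one_le_mul_of_one_le_of_one_le h2 h3
  exact one_le_mul_of_one_le_of_one_le h1 h4

/-- The number of copies. -/
abbrev NN (m : ℕ) : ℕ := Fintype.card (Fin m) + 1

/-- **Entropy of the directions given an implicit label.** -/
theorem CH_dir_implicit (F : Fam m J) {g : ℕ} (hg : g < J) {κ : Type} (z : F.Ω → κ)
    {e' η : ℝ} (he' : ((J : ℝ) - g) * Real.log 2 - e' ≤ CH F.p F.T (bl F g z))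
    (hu : ∀ ω i, |F.u ω i| ≤ 1) (Gd : F.Ω → Prop)
    (hη : (open Classical in Ex F.p (fun ω => if Gd ω then 0 else 1)) ≤ η)
    {D : ℕ} (Φ : κ × (ℕ × F.ζ) → ℕ → Fin m → MvPolynomial (Fin m) ℝ)
    (hΦ : ∀ c t i, (Φ c t i).totalDegree ≤ D)
    (b : κ × (ℕ × F.ζ) → ℕ → Fin m → ℝ) (hb : ∀ c t i, 0 < b c t i)
    (γ : κ × (ℕ × F.ζ) → ℕ → ℝ) (hγ : ∀ c t, 0 < γ c t)
    (R : κ × (ℕ × F.ζ) → ℝ) (hR1 : ∀ c, 1 ≤ R c)
    (hR : ∀ c t, CI m D * (∏ i, b c t i) / γ c t ≤ R c / 2 ^ (m * J))
    (hin : ∀ ω, 0 < F.p ω → Gd ω → ∀ d' : Fin m → ℝ, dist d' (F.d ω) < 1 / 2 ^ J / 2 →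
      (∀ i, |eval (fun k => F.u ω k + (F.T ω : ℝ) / 2 ^ J * d' k)
        (Φ (lab F g z ω) (F.T ω) i)| ≤ b (lab F g z ω) (F.T ω) i) ∧
      γ (lab F g z ω) (F.T ω) ≤ |(jac (Φ (lab F g z ω) (F.T ω))
        (fun k => F.u ω k + (F.T ω : ℝ) / 2 ^ J * d' k)).det|) :
    CH F.p (F.D J) (lab F g z) ≤ Ex F.p (fun ω => Real.log (R (lab F g z ω))) +
      m * (g * Real.log 2) + (m + 1) * e' + Real.log 2 + Real.log (KC m D) +
      (m + 1) * m * (2 * ((m + 1) * e' + Real.log 6)) +
      m * (J + 2) * Real.log 2 * ((m + 1) * η +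
        (m + 1) * m * (2 * ((m + 1) * e' + Real.log 6)) / (((J : ℝ) - g) * Real.log 2)) := by
  classical
  have hgJ : g ≤ J := hg.le
  have hNN : ((NN m : ℕ) : ℝ) = m + 1 := by
    unfold NN
    rw [Fintype.card_fin]
    push_cast
    ring
  set q := cpy F g z (NN m) with hqdef
  have hlaw := cpy_law F g z (NN m)
  have hq := hlaw.nonneg
  have hsum := hlaw.sum_one
  have hlog2 : 0 < Real.log 2 := Real.log_pos (by norm_num)
  have hJg : 0 < (J : ℝ) - g := by
    have : (g : ℝ) < J := by exact_mod_cast hg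
    linarith only [this]
  set τ := tau F (NN m) with hτ
  set good : F.Ω × (Fin (NN m) → F.Ω) → Prop := fun w =>
    (∀ r, Gd (w.2 r)) ∧ Function.Injective (τ w) with hgood
  set c : F.Ω × (Fin (NN m) → F.Ω) → Bool × ((Fin (NN m) → ℕ) × (κ × (ℕ × F.ζ))) :=
    fun w => (decide (good w), (τ w, lab F g z w.1)) with hc
  have hwin : ∀ w, 0 < q w → ∀ a b', τ w a / 2 ^ (J - g) = τ w b' / 2 ^ (J - g) := by
    intro w hw a b'
    rw [hτ, tau_window F g z (NN m) hw a, tau_window F g z (NN m) hw b']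
  -- add the nodes and the indicator
  have h1 := add_nodes F g z (NN m) hgJ he'
  rw [hNN] at h1
  have h2 := CH_le_add hq (fun w : F.Ω × (Fin (NN m) → F.Ω) => F.D J w.1)
    (fun w => decide (good w)) (fun w => (τ w, lab F g z w.1))
  have h3 : CH q (fun w => decide (good w)) (fun w => (τ w, lab F g z w.1)) ≤ Real.log 2 := by
    have h4 := CH_le_card hq hsum (fun w => decide (good w)) (fun w => (τ w, lab F g z w.1))
      (fun _ => (Finset.univ : Finset Bool)) (fun w _ => Finset.mem_univ _)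
    refine h4.trans (le_of_eq ?_)
    simp only [Finset.card_univ, Fintype.card_bool, Nat.cast_ofNat]
    exact Ex_const hsum _
  -- the count
  set Fc : Bool × ((Fin (NN m) → ℕ) × (κ × (ℕ × F.ζ))) → Finset (Fin m → ℤ) := fun v =>
    (Finset.univ.filter fun w : F.Ω × (Fin (NN m) → F.Ω) => 0 < q w ∧ c w = v).image
      (fun w => F.D J w.1) with hFc
  have hmem : ∀ w, 0 < q w → F.D J w.1 ∈ Fc (c w) := by
    intro w hw
    exact Finset.mem_image.mpr ⟨w, Finset.mem_filter.mpr ⟨Finset.mem_univ _, hw, rfl⟩, rfl⟩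
  have h4 := CH_le_card hq hsum (fun w : F.Ω × (Fin (NN m) → F.Ω) => F.D J w.1) c Fc hmem
  have hK1 := one_le_KC m D
  set B : F.Ω × (Fin (NN m) → F.Ω) → ℝ := fun w =>
    Real.log (R (lab F g z w.1)) + (m * (g * Real.log 2) + Real.log (KC m D)) +
    (∑ a, ∑ b' ∈ Finset.univ.erase a, Real.log (ft g J (τ w a) (τ w b'))) +
    (if good w then 0 else m * (J + 2) * Real.log 2) with hB
  have hcard : ∀ w, 0 < q w → Real.log ((Fc (c w)).card) ≤ B w := by
    intro w hw
    have hpos : (0 : ℝ) < (Fc (c w)).card := by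
      exact_mod_cast Finset.card_pos.mpr ⟨_, hmem w hw⟩
    have hR0 : 0 < R (lab F g z w.1) := zero_lt_one.trans_le (hR1 _)
    have hlogR : 0 ≤ Real.log (R (lab F g z w.1)) := Real.log_nonneg (hR1 _)
    have hlogK : 0 ≤ Real.log (KC m D) := Real.log_nonneg hK1
    have hmg : 0 ≤ (m : ℝ) * (g * Real.log 2) := by positivity
    have hWT := one_le_WT (g := g) (J := J) (hwin w hw)
    have hlWT := log_WT (g := g) (J := J) (hwin w hw)
    have hlW0 : 0 ≤ Real.log (WT g J (τ w)) := Real.log_nonneg hWT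
    by_cases hgw : good w
    · -- good class
      have hP : AlgAt (Aux m) m (2 * (m * D + D + 1)) J ((2 : ℝ) ^ (g * m) * WT g J (τ w))
          (R (lab F g z w.1)) {D' | ∃ w', 0 < q w' ∧ c w' = c w ∧ D' = F.d w'.1} := by
        refine algAt_of_implicit (fun j => Φ (lab F g z w.1) (τ w j))
          (fun j i => hΦ _ _ _) (fun j => b (lab F g z w.1) (τ w j)) (fun j i => hb _ _ _)
          (fun j => γ (lab F g z w.1) (τ w j)) (fun j => hγ _ _)
          (fun j => (τ w j : ℝ) / 2 ^ J) ?_ ?_ (fun j => hR _ _) _ ?_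
        · intro a b' hab
          refine hgw.2 ?_
          have h5 : (0 : ℝ) < 2 ^ J := by positivity
          have h6 : (τ w a : ℝ) = τ w b' := by
            simp only at hab
            field_simp at hab
            exact hab
          exact_mod_cast h6
        · intro i
          have h5 := wt_le_WT (g := g) hgJ hgw.2 (hwin w hw) i
          have h6 : NN m - 1 = m := by
            unfold NN
            rw [Fintype.card_fin]
            rfl
          rw [h6] at h5
          exact h5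
        · rintro d ⟨w', hw', hcw, rfl⟩
          simp only [hc, Prod.mk.injEq] at hcw
          have hgw' : good w' := by
            have := hcw.1
            rw [decide_eq_decide] at this
            exact this.mpr hgw
          refine ⟨F.u w'.1, ?_, ?_⟩
          · rw [pi_norm_le_iff_of_nonneg zero_le_one]
            intro i
            rw [Real.norm_eq_abs]
            exact hu _ i
          · intro d' hd' j
            have h5 := cpy_eq F g z (NN m) hw' j
            have h6 : F.l (w'.2 j) = F.l w'.1 ∧ lab F g z (w'.2 j) = lab F g z w'.1 := by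
              have := h5.1
              simp only [bl, Prod.mk.injEq] at this
              exact this
            have h7 : F.u (w'.2 j) = F.u w'.1 ∧ F.d (w'.2 j) = F.d w'.1 := by
              have := h6.1
              simp only [Fam.l, Prod.mk.injEq] at this
              exact this
            have h8 := hin (w'.2 j) h5.2 (hgw'.1 j) d' (by rw [h7.2]; exact hd')
            rw [h6.2, h7.1, hcw.2.2] at h8
            have h9 : F.T (w'.2 j) = τ w j := by
              rw [← hcw.2.1]
              rfl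
            rw [h9] at h8
            exact h8
      have h5 := card_cells_le (by omega : 1 ≤ 2 * (m * D + D + 1)) (by positivity) hP
        (Fc (c w)) (by
          intro k hk
          obtain ⟨w', hw', rfl⟩ := Finset.mem_image.mp hk
          obtain ⟨_, h6, h7⟩ := Finset.mem_filter.mp hw'
          exact ⟨F.d w'.1, ⟨w', h6, h7, rfl⟩, rfl⟩) ⟨_, hmem w hw⟩
      have h6 : 2 ^ m * ((((2 * (m * D + D + 1) : ℕ) : ℝ) + 1) ^ (m + Fintype.card (Aux m)) *
          (m + 1) * ((2 : ℝ) ^ (g * m) * WT g J (τ w)) * R (lab F g z w.1)) =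
          KC m D * ((2 : ℝ) ^ (g * m) * (WT g J (τ w) * R (lab F g z w.1))) := by
        unfold KC
        ring
      rw [h6] at h5
      have h7 : Real.log (KC m D * ((2 : ℝ) ^ (g * m) * (WT g J (τ w) * R (lab F g z w.1)))) =
          Real.log (KC m D) + ((g * m : ℕ) * Real.log 2 + (Real.log (WT g J (τ w)) +
            Real.log (R (lab F g z w.1)))) := by
        have hW0 : 0 < WT g J (τ w) := by linarith only [hWT]
        have hK0 : 0 < KC m D := by linarith only [hK1]
        rw [Real.log_mul hK0.ne' (by positivity), Real.log_mul (by positivity) (by positivity),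
          Real.log_mul hW0.ne' hR0.ne', Real.log_pow]
      have h8 := Real.log_le_log hpos h5
      rw [h7, hlWT] at h8
      simp only [hB, if_pos hgw]
      push_cast at h8
      linarith only [h8]
    · have h5 := card_dir_le F (Fc (c w)) (by
        intro k hk
        obtain ⟨w', _, rfl⟩ := Finset.mem_image.mp hk
        exact ⟨w'.1, rfl⟩)
      have h6 := Real.log_le_log hpos h5
      rw [Real.log_pow] at h6
      simp only [hB, if_neg hgw]
      rw [← hlWT]
      push_cast at h6
      linarith only [hlogR, hlogK, hmg, hlW0, h6]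
  have h5 : Ex q B = Ex F.p (fun ω => Real.log (R (lab F g z ω))) +
      (m * (g * Real.log 2) + Real.log (KC m D)) +
      (∑ a, ∑ b' ∈ Finset.univ.erase a, Ex q (fun w => Real.log (ft g J (τ w a) (τ w b')))) +
      m * (J + 2) * Real.log 2 * Ex q (fun w => if good w then 0 else 1) := by
    have e1 : Ex q (fun w => Real.log (R (lab F g z w.1))) =
        Ex F.p (fun ω => Real.log (R (lab F g z ω))) :=
      (cpy_fst F g z (NN m)).ex (fun ω => Real.log (R (lab F g z ω)))
    have e2 : Ex q (fun w => ∑ a, ∑ b' ∈ Finset.univ.erase a,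
        Real.log (ft g J (τ w a) (τ w b'))) =
        ∑ a, ∑ b' ∈ Finset.univ.erase a, Ex q (fun w => Real.log (ft g J (τ w a) (τ w b'))) := by
      unfold Ex
      simp only [Finset.mul_sum]
      rw [Finset.sum_comm]
      refine Finset.sum_congr rfl fun a _ => ?_
      rw [Finset.sum_comm]
    have e3 : Ex q (fun w => if good w then (0 : ℝ) else m * (J + 2) * Real.log 2) =
        m * (J + 2) * Real.log 2 * Ex q (fun w => if good w then 0 else 1) := by
      rw [← Ex_smul]
      congr 1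
      funext w
      split_ifs <;> simp
    rw [hB, Ex_add, Ex_add, Ex_add, Ex_const hsum, e1, e2, e3]
  -- energies
  have h6 : ∀ a b' : Fin (NN m), a ≠ b' → Ex q (fun w => Real.log (ft g J (τ w a) (τ w b'))) ≤
      2 * ((m + 1) * e' + Real.log 6) := by
    intro a b' hab
    have := pair_energy F g z (NN m) hgJ he' hab
    rw [hNN] at this
    exact this
  have hcardE : ∀ a : Fin (NN m), ((Finset.univ.erase a).card : ℝ) = m := by
    intro a
    rw [Finset.card_erase_of_mem (Finset.mem_univ a), Finset.card_univ, Fintype.card_fin]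
    unfold NN
    rw [Fintype.card_fin]
    simp
  have h7 : ∑ a, ∑ b' ∈ Finset.univ.erase a, Ex q (fun w => Real.log (ft g J (τ w a) (τ w b'))) ≤
      (m + 1) * m * (2 * ((m + 1) * e' + Real.log 6)) := by
    have e1 : ∀ a ∈ (Finset.univ : Finset (Fin (NN m))), ∑ b' ∈ Finset.univ.erase a,
        Ex q (fun w => Real.log (ft g J (τ w a) (τ w b'))) ≤
        m * (2 * ((m + 1) * e' + Real.log 6)) := by
      intro a _
      refine (Finset.sum_le_card_nsmul _ _ _ fun b' hb' =>
        h6 a b' (Finset.mem_erase.mp hb').1.symm).trans (le_of_eq ?_)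
      rw [nsmul_eq_mul, hcardE]
    refine (Finset.sum_le_card_nsmul _ _ _ e1).trans (le_of_eq ?_)
    rw [nsmul_eq_mul, Finset.card_univ, Fintype.card_fin, hNN]
    ring
  -- probability of the bad event
  have hM0 : 0 < ((J : ℝ) - g) * Real.log 2 := by positivity
  have h8 : Ex q (fun w => if good w then (0 : ℝ) else 1) ≤ (m + 1) * η +
      (m + 1) * m * (2 * ((m + 1) * e' + Real.log 6)) / (((J : ℝ) - g) * Real.log 2) := by
    have e1 : Ex q (fun w => if good w then (0 : ℝ) else 1) ≤
        Ex q (fun w => (∑ r, if Gd (w.2 r) then (0 : ℝ) else 1) +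
          ∑ a, ∑ b' ∈ Finset.univ.erase a,
            1 / (((J : ℝ) - g) * Real.log 2) * Real.log (ft g J (τ w a) (τ w b'))) := by
      refine Ex_mono hq fun w hw => ?_
      have f1 : ∀ r, (0 : ℝ) ≤ if Gd (w.2 r) then (0 : ℝ) else 1 := fun r => by
        split_ifs <;> norm_num
      have f2 : ∀ a b', 0 ≤ 1 / (((J : ℝ) - g) * Real.log 2) *
          Real.log (ft g J (τ w a) (τ w b')) := fun a b' =>
        mul_nonneg (by positivity) (Real.log_nonneg (one_le_ft (hwin w hw a b')))
      have f3 := Finset.sum_nonneg (s := Finset.univ) fun r (_ : r ∈ Finset.univ) => f1 r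
      have f4 : ∀ a, 0 ≤ ∑ b' ∈ Finset.univ.erase a,
            1 / (((J : ℝ) - g) * Real.log 2) * Real.log (ft g J (τ w a) (τ w b')) := fun a =>
        Finset.sum_nonneg fun b' _ => f2 a b'
      have f5 := Finset.sum_nonneg (s := Finset.univ)
        fun (a : Fin (NN m)) (_ : a ∈ Finset.univ) => f4 a
      by_cases hgw : good w
      · rw [if_pos hgw]
        linarith only [f3, f5]
      · rw [if_neg hgw]
        simp only [hgood, not_and_or, not_forall] at hgw
        rcases hgw with ⟨r, hr⟩ | hinj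
        · have f6 := Finset.single_le_sum (f := fun r => if Gd (w.2 r) then (0 : ℝ) else 1)
            (fun r _ => f1 r) (Finset.mem_univ r)
          simp only [if_neg hr] at f6
          linarith only [f5, f6]
        · unfold Function.Injective at hinj
          push Not at hinj
          obtain ⟨a, b', hab, hne⟩ := hinj
          have f6 := Finset.single_le_sum (f := fun a => ∑ b' ∈ Finset.univ.erase a,
            1 / (((J : ℝ) - g) * Real.log 2) * Real.log (ft g J (τ w a) (τ w b')))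
            (fun a _ => f4 a) (Finset.mem_univ a)
          have f7 := Finset.single_le_sum (f := fun b' =>
            1 / (((J : ℝ) - g) * Real.log 2) * Real.log (ft g J (τ w a) (τ w b')))
            (fun b' _ => f2 a b') (Finset.mem_erase.mpr ⟨hne.symm, Finset.mem_univ b'⟩)
          have f8 : 1 / (((J : ℝ) - g) * Real.log 2) * Real.log (ft g J (τ w a) (τ w b')) = 1 := by
            have f9 : ft g J (τ w a) (τ w b') = 2 ^ (J - g) := by
              unfold ft
              rw [hab]
              have : dd (τ w b') (τ w b') = 1 := by unfold dd; omega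
              rw [this]
              simp
            rw [f9, Real.log_pow, Nat.cast_sub hgJ, one_div, inv_mul_cancel₀ hM0.ne']
          linarith only [f3, f6, f7, f8]
    refine e1.trans ?_
    rw [Ex_add]
    have e2 : Ex q (fun w => ∑ r, if Gd (w.2 r) then (0 : ℝ) else 1) ≤ (m + 1) * η := by
      have e3 : Ex q (fun w => ∑ r, if Gd (w.2 r) then (0 : ℝ) else 1) =
          ∑ r, Ex q (fun w => if Gd (w.2 r) then (0 : ℝ) else 1) := by
        unfold Ex
        simp only [Finset.mul_sum]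
        rw [Finset.sum_comm]
      rw [e3]
      have e4 : ∀ r ∈ (Finset.univ : Finset (Fin (NN m))),
          Ex q (fun w => if Gd (w.2 r) then (0 : ℝ) else 1) ≤ η := by
        intro r _
        have := (cpy_snd F g z (NN m) r).ex (fun ω => if Gd ω then (0 : ℝ) else 1)
        rw [this]
        exact hη
      refine (Finset.sum_le_card_nsmul _ _ _ e4).trans (le_of_eq ?_)
      rw [nsmul_eq_mul, Finset.card_univ, Fintype.card_fin, hNN]
    have e5 : Ex q (fun w => ∑ a, ∑ b' ∈ Finset.univ.erase a,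
            1 / (((J : ℝ) - g) * Real.log 2) * Real.log (ft g J (τ w a) (τ w b'))) =
        1 / (((J : ℝ) - g) * Real.log 2) * ∑ a, ∑ b' ∈ Finset.univ.erase a,
          Ex q (fun w => Real.log (ft g J (τ w a) (τ w b'))) := by
      unfold Ex
      simp only [Finset.mul_sum]
      rw [Finset.sum_comm]
      refine Finset.sum_congr rfl fun a _ => ?_
      rw [Finset.sum_comm]
      refine Finset.sum_congr rfl fun b' _ => Finset.sum_congr rfl fun w _ => by ring
    rw [e5]
    have e6 := mul_le_mul_of_nonneg_left h7 (one_div_pos.mpr hM0).le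
    have e7 : 1 / (((J : ℝ) - g) * Real.log 2) * ((m + 1) * m *
        (2 * ((m + 1) * e' + Real.log 6))) =
        (m + 1) * m * (2 * ((m + 1) * e' + Real.log 6)) / (((J : ℝ) - g) * Real.log 2) := by
      ring
    linarith only [e2, e6, e7]
  have h9 : Ex q (fun w => Real.log ((Fc (c w)).card)) ≤ Ex q B := Ex_mono hq hcard
  have h10 : m * (J + 2) * Real.log 2 * Ex q (fun w => if good w then (0 : ℝ) else 1) ≤
      m * (J + 2) * Real.log 2 * ((m + 1) * η +
        (m + 1) * m * (2 * ((m + 1) * e' + Real.log 6)) / (((J : ℝ) - g) * Real.log 2)) :=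
    mul_le_mul_of_nonneg_left h8 (by positivity)
  linarith only [h1, h2, h3, h4, h5, h7, h9, h10]

/-- The constant of the end. -/
noncomputable def KE (m : ℕ) : ℝ := 20 * ((m : ℝ) + 1) ^ 4

/-- **The end for implicit labels.** Let `z` be a label of the pairs (line, time), used on windows
of length `2 ^ (-g)`, such that
* the time is uniform in the window given line and label, up to a deficit `e'`;
* the label is visible from the position up to `s`;
* outside an event of probability `η` the line satisfies at its time a nondegenerate system of `m`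
  polynomial equations (degree at most `D`, depending on label and time) up to errors for which
  the solution set has volume at most `R 2 ^ (- m J)`;
* the position is full: its entropy given label and time is at least the mean of `log R` minus `τ`.
Then the violation is at most `m g log 2` plus errors. -/
theorem end_impl (F : Fam m J) {g : ℕ} (hg : 2 * g ≤ J) (hJ : 2 ≤ J) {κ : Type} (z : F.Ω → κ)
    {e e' s τ η : ℝ} (he : F.Tm e)
    (he' : ((J : ℝ) - g) * Real.log 2 - e' ≤ CH F.p F.T (bl F g z)) (he0 : 0 ≤ e')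
    (hs : CH F.p z (fun ω => (F.X J ω, F.W ω)) ≤ CH F.p z (fun ω => (F.l ω, F.W ω)) + s)
    (hu : ∀ ω i, |F.u ω i| ≤ 1) (Gd : F.Ω → Prop)
    (hη : (open Classical in Ex F.p (fun ω => if Gd ω then 0 else 1)) ≤ η)
    {D : ℕ} (Φ : κ × (ℕ × F.ζ) → ℕ → Fin m → MvPolynomial (Fin m) ℝ)
    (hΦ : ∀ c t i, (Φ c t i).totalDegree ≤ D)
    (b : κ × (ℕ × F.ζ) → ℕ → Fin m → ℝ) (hb : ∀ c t i, 0 < b c t i)
    (γ : κ × (ℕ × F.ζ) → ℕ → ℝ) (hγ : ∀ c t, 0 < γ c t)
    (R : κ × (ℕ × F.ζ) → ℝ) (hR1 : ∀ c, 1 ≤ R c)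
    (hR : ∀ c t, CI m D * (∏ i, b c t i) / γ c t ≤ R c / 2 ^ (m * J))
    (hin : ∀ ω, 0 < F.p ω → Gd ω → ∀ d' : Fin m → ℝ, dist d' (F.d ω) < 1 / 2 ^ J / 2 →
      (∀ i, |eval (fun k => F.u ω k + (F.T ω : ℝ) / 2 ^ J * d' k)
        (Φ (lab F g z ω) (F.T ω) i)| ≤ b (lab F g z ω) (F.T ω) i) ∧
      γ (lab F g z ω) (F.T ω) ≤ |(jac (Φ (lab F g z ω) (F.T ω))
        (fun k => F.u ω k + (F.T ω : ℝ) / 2 ^ J * d' k)).det|)
    (hf : Ex F.p (fun ω => Real.log (R (lab F g z ω))) ≤
      CH F.p (F.X J) (fun ω => (z ω, F.W ω)) + τ) :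
    F.V J ≤ m * (g * Real.log 2) + τ + s + e + KE m * (e' + 1) +
      2 * m * (m + 1) * η * (J * Real.log 2) + Real.log 2 + Real.log (KC m D) := by
  have h1 := V_le_label F g z he hs
  have hgJ : g < J := by omega
  have h2 := CH_dir_implicit F hgJ z he' hu Gd hη Φ hΦ b hb γ hγ R hR1 hR hin
  have hm0 : (0 : ℝ) ≤ m := Nat.cast_nonneg m
  have hJ2 : (2 : ℝ) ≤ J := by exact_mod_cast hJ
  have hgR : 2 * (g : ℝ) ≤ J := by exact_mod_cast hg
  have hlog2 : 0 < Real.log 2 := Real.log_pos (by norm_num)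
  have hlog6 : Real.log 6 ≤ 2 := by
    have : (6 : ℝ) ≤ Real.exp 2 := by
      have h3 : Real.exp 2 = Real.exp 1 * Real.exp 1 := by rw [← Real.exp_add]; norm_num
      have h4 := Real.exp_one_gt_d9
      rw [h3]
      nlinarith only [h4]
    calc Real.log 6 ≤ Real.log (Real.exp 2) := Real.log_le_log (by norm_num) this
      _ = 2 := Real.log_exp 2
  have hlog60 : 0 ≤ Real.log 6 := Real.log_nonneg (by norm_num)
  have hη0 : 0 ≤ η := by
    classical
    refine le_trans (Ex_nonneg F.isLaw.nonneg fun ω _ => ?_) hη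
    split_ifs <;> norm_num
  set E : ℝ := 2 * ((m + 1) * e' + Real.log 6) with hE
  have hE0 : 0 ≤ E := by rw [hE]; positivity
  have hJg : 0 < (J : ℝ) - g := by
    have : (g : ℝ) < J := by exact_mod_cast hgJ
    linarith only [hJ2, hgR]
  -- the collisions
  have h3 : (m : ℝ) * (J + 2) * Real.log 2 * ((m + 1) * η +
      (m + 1) * m * E / (((J : ℝ) - g) * Real.log 2)) ≤
      2 * m * (m + 1) * η * (J * Real.log 2) + 4 * (m * ((m + 1) * m * E)) := by
    have e1 : (m : ℝ) * (J + 2) * Real.log 2 * ((m + 1) * η +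
      (m + 1) * m * E / (((J : ℝ) - g) * Real.log 2)) =
      m * (m + 1) * η * Real.log 2 * (J + 2) +
        (m * ((m + 1) * m * E)) * ((J + 2) / ((J : ℝ) - g)) := by
      field_simp
    rw [e1]
    have e2 : ((J : ℝ) + 2) / ((J : ℝ) - g) ≤ 4 := by
      rw [div_le_iff₀ hJg]
      linarith only [hJ2, hgR]
    have e3 : 0 ≤ (m : ℝ) * ((m + 1) * m * E) := by positivity
    have e4 : 0 ≤ (m : ℝ) * (m + 1) * η * Real.log 2 := by positivity
    nlinarith only [e2, e3, hJ2, e4, mul_le_mul_of_nonneg_left e2 e3, mul_le_mul_of_nonneg_left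
      (show (J : ℝ) + 2 ≤ 2 * J by linarith only [hJ2]) e4]
  have h4 : ((m : ℝ) + 1) * e' + (m + 1) * m * E + 4 * (m * ((m + 1) * m * E)) ≤
      KE m * (e' + 1) := by
    unfold KE
    set N : ℝ := (m : ℝ) + 1 with hN
    have hmN : (m : ℝ) ≤ N := by rw [hN]; linarith only
    have hN1 : 1 ≤ N := by rw [hN]; linarith only
    have hEle : E ≤ 2 * (N * e' + 2) := by rw [hE]; nlinarith only [hlog6]
    have f1 : N * m * E ≤ N ^ 2 * E := by nlinarith only [hN1, hE0, mul_nonneg (zero_le_one.trans hN1) hE0]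
    have f2 : (m : ℝ) * (N * m * E) ≤ N * (N ^ 2 * E) :=
      mul_le_mul hmN f1 (by positivity) (by linarith)
    have hN2 : 1 ≤ N ^ 2 := one_le_pow₀ hN1
    have hN3 : N ^ 2 ≤ N ^ 3 := pow_le_pow_right₀ hN1 (by norm_num)
    have hN4 : N ^ 3 ≤ N ^ 4 := pow_le_pow_right₀ hN1 (by norm_num)
    have f3 : N ^ 2 * E ≤ N ^ 2 * (2 * (N * e' + 2)) :=
      mul_le_mul_of_nonneg_left hEle (by positivity)
    have f4 : N * (N ^ 2 * E) ≤ N * (N ^ 2 * (2 * (N * e' + 2))) :=
      mul_le_mul_of_nonneg_left f3 (by positivity)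
    have g1 : N ^ 2 * (2 * (N * e' + 2)) = 2 * (N ^ 3 * e') + 4 * N ^ 2 := by ring
    have g2 : N * (N ^ 2 * (2 * (N * e' + 2))) = 2 * (N ^ 4 * e') + 4 * N ^ 3 := by ring
    have g3 : N * e' ≤ N ^ 4 * e' := by
      have : N ≤ N ^ 4 := by nlinarith only [hN2, hN3, hN4]
      exact mul_le_mul_of_nonneg_right this he0
    have g4 : N ^ 3 * e' ≤ N ^ 4 * e' := mul_le_mul_of_nonneg_right hN4 he0
    nlinarith only [he0, f1, f2, hN2, hN3, hN4, f4, g3]
  have h5 : (m : ℝ) * (J + 2) * Real.log 2 * ((m + 1) * η +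
        (m + 1) * m * (2 * ((m + 1) * e' + Real.log 6)) / (((J : ℝ) - g) * Real.log 2)) =
      (m : ℝ) * (J + 2) * Real.log 2 * ((m + 1) * η +
      (m + 1) * m * E / (((J : ℝ) - g) * Real.log 2)) := by rw [hE]
  rw [h5] at h2
  have h6 : ((m : ℝ) + 1) * m * (2 * ((m + 1) * e' + Real.log 6)) = (m + 1) * m * E := by rw [hE]
  rw [h6] at h2
  linarith only [hf, h1, h2, h3, h4]

end Pool.KEND
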