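import Pool.Agent.H84.KEND.Count

/-!
# Labels given by implicit polynomial equations

At each of `m + 1` times the lines of the label lie in the set where `m` polynomials `Φ_i` are at
most `b_i` and their Jacobian determinant is at least `γ`. Then the label is algebraic.
-/

set_option autoImplicit false

namespace Pool.KEND

open Finset Real MeasureTheory MvPolynomial
open Pool.Agent.H49.Ent Pool.Agent.H32.Dense Pool.STK Pool.KA Pool.Agent.H50.PW

variable {m : ℕ}

/-- Volume of the set where the polynomials are small and the Jacobian is not. -/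
theorem volume_small_le {D : ℕ} (Φ : Fin m → MvPolynomial (Fin m) ℝ)
    (hΦ : ∀ i, (Φ i).totalDegree ≤ D) (b : Fin m → ℝ) (hb : ∀ i, 0 ≤ b i) {γ : ℝ} (hγ : 0 < γ) :
    volume {x : Fin m → ℝ | (∀ i, |eval x (Φ i)| ≤ b i) ∧ γ ≤ |(jac Φ x).det|} ≤
      ENNReal.ofReal ((D + 1) ^ m * (∏ i, (2 * b i)) / γ) := by
  set K : Set (Fin m → ℝ) := {x | (∀ i, |eval x (Φ i)| ≤ b i) ∧ γ ≤ |(jac Φ x).det|} with hK
  have hKm : MeasurableSet K := by
    have h1 : K = (⋂ i, (fun x => eval x (Φ i)) ⁻¹' Set.Icc (-b i) (b i)) ∩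
        (fun x => |(jac Φ x).det|) ⁻¹' Set.Ici γ := by
      ext x
      simp only [hK, Set.mem_ofPred_eq, Set.mem_inter_iff, Set.mem_iInter, Set.mem_preimage,
        Set.mem_Icc, Set.mem_Ici, abs_le]
    rw [h1]
    refine MeasurableSet.inter (MeasurableSet.iInter fun i => ?_) ?_
    · exact (continuous_eval' (Φ i)).measurable measurableSet_Icc
    · exact (continuous_jac_det Φ).abs.measurable measurableSet_Ici
  have h1 : ENNReal.ofReal γ * volume K ≤ ∫⁻ x in K, ENNReal.ofReal |(jac Φ x).det| := by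
    rw [← setLIntegral_const]
    refine setLIntegral_mono' hKm fun x hx => ENNReal.ofReal_le_ofReal hx.2
  have h2 := lintegral_det_le Φ hΦ K hKm
  rw [Fintype.card_fin] at h2
  have h3 : volume (pmap Φ '' K) ≤ ENNReal.ofReal (∏ i, (2 * b i)) := by
    have h4 : pmap Φ '' K ⊆ Set.Icc (fun i => -b i) b := by
      rintro y ⟨x, hx, rfl⟩
      rw [Set.mem_Icc]
      exact ⟨fun i => (abs_le.mp (hx.1 i)).1, fun i => (abs_le.mp (hx.1 i)).2⟩
    refine (measure_mono h4).trans ?_
    rw [Real.volume_Icc_pi, ← ENNReal.ofReal_prod_of_nonneg (fun i _ => by linarith only [hb, hb i])]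
    refine ENNReal.ofReal_le_ofReal (le_of_eq (Finset.prod_congr rfl fun i _ => by ring))
  have hprod : (0 : ℝ) ≤ ∏ i, (2 * b i) := Finset.prod_nonneg fun i _ => by linarith only [hb, hb i]
  have h5 : ENNReal.ofReal γ * volume K ≤ ENNReal.ofReal ((D + 1) ^ m * ∏ i, (2 * b i)) := by
    refine h1.trans (h2.trans ((mul_le_mul_right h3 _).trans (le_of_eq ?_)))
    rw [ENNReal.ofReal_mul (by positivity)]
    congr 1
    rw [← ENNReal.ofReal_natCast]
    congr 1
    push_cast
    rfl
  have h6 : ENNReal.ofReal γ ≠ 0 := (ENNReal.ofReal_pos.mpr hγ).ne'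
  rw [ENNReal.ofReal_div_of_pos hγ]
  rw [ENNReal.le_div_iff_mul_le (Or.inl h6) (Or.inl ENNReal.ofReal_ne_top), mul_comm]
  exact h5

/-- The Jacobian determinant as a polynomial. -/
noncomputable def detP (Φ : Fin m → MvPolynomial (Fin m) ℝ) : MvPolynomial (Fin m) ℝ :=
  (Matrix.of fun i j => pderiv j (Φ i)).det

theorem eval_detP (Φ : Fin m → MvPolynomial (Fin m) ℝ) (x : Fin m → ℝ) :
    eval x (detP Φ) = (jac Φ x).det := by
  unfold detP jac
  rw [RingHom.map_det]
  congr 1

theorem totalDegree_detP_le {D : ℕ} (Φ : Fin m → MvPolynomial (Fin m) ℝ)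
    (hΦ : ∀ i, (Φ i).totalDegree ≤ D) : (detP Φ).totalDegree ≤ m * D := by
  unfold detP
  rw [Matrix.det_apply]
  refine (totalDegree_finsetSum _ _).trans (Finset.sup_le fun σ _ => ?_)
  have h1 : (∏ i, (Matrix.of fun i j => pderiv j (Φ i)) (σ i) i).totalDegree ≤ m * D := by
    refine (totalDegree_finsetProd _ _).trans ?_
    refine (Finset.sum_le_card_nsmul _ _ D fun i _ => ?_).trans ?_
    · exact (totalDegree_pderiv_le _ _).trans (hΦ _)
    · rw [Finset.card_univ, Fintype.card_fin, smul_eq_mul]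
  rcases Int.units_eq_one_or (Equiv.Perm.sign σ) with h | h
  · rw [h, one_smul]; exact h1
  · rw [h, Units.neg_smul, one_smul, totalDegree_neg]; exact h1

/-- Substitution of linear forms: evaluation. -/
theorem eval_bind {σ τ : Type*} (L : σ → MvPolynomial τ ℝ) (q : MvPolynomial σ ℝ) (x : τ → ℝ) :
    eval x (bind₁ L q) = eval (fun j => eval x (L j)) q := by
  induction q using MvPolynomial.induction_on with
  | C a => simp only [bind₁_C_right, eval_C]
  | add p q hp hq => rw [map_add, map_add, map_add, hp, hq]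
  | mul_X p n hp => rw [map_mul, map_mul, map_mul, hp, bind₁_X_right, eval_X]

/-- The auxiliary variables: position at time zero, and the inverses of the determinants. -/
abbrev Aux (m : ℕ) : Type := Fin m ⊕ Fin (Fintype.card (Fin m) + 1)

/-- The position at time `s` as a polynomial in direction and auxiliary variables. -/
noncomputable def linX (s : ℝ) (k : Fin m) : MvPolynomial (Fin m ⊕ Aux m) ℝ :=
  X (Sum.inr (Sum.inl k)) + C s * X (Sum.inl k)

theorem totalDegree_linX_le (s : ℝ) (k : Fin m) : (linX s k).totalDegree ≤ 1 := by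
  refine (totalDegree_add _ _).trans (max_le ?_ ?_)
  · simp only [totalDegree_X, le_refl]
  · refine (totalDegree_mul _ _).trans ?_
    simp only [totalDegree_C, totalDegree_X, zero_add, le_refl]

theorem eval_linX (s : ℝ) (k : Fin m) (D : Fin m → ℝ) (A : Aux m → ℝ) :
    eval (Sum.elim D A) (linX s k) = A (Sum.inl k) + s * D k := by
  simp [linX]

/-- The constants. -/
def nn (m : ℕ) : ℕ := Fintype.card (Aux m)

/-- number of equations -/
def KK (m : ℕ) : ℝ := (m + 1) * m + 1

/-- slack -/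
def QQ (m : ℕ) : ℝ := KK m * (4 * nn m + 1)

theorem one_le_KK (m : ℕ) : 1 ≤ KK m := by
  unfold KK; nlinarith only [(Nat.cast_nonneg m : (0 : ℝ) ≤ m)]

theorem one_le_QQ (m : ℕ) : 1 ≤ QQ m := by
  unfold QQ
  have h1 := one_le_KK m
  have h2 : (0 : ℝ) ≤ nn m := Nat.cast_nonneg _
  nlinarith only [h1]

/-- The polynomial of an implicit label. -/
noncomputable def impP (Φ : Fin (Fintype.card (Fin m) + 1) → Fin m → MvPolynomial (Fin m) ℝ)
    (b : Fin (Fintype.card (Fin m) + 1) → Fin m → ℝ) (γ : Fin (Fintype.card (Fin m) + 1) → ℝ)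
    (t : Fin (Fintype.card (Fin m) + 1) → ℝ) : MvPolynomial (Fin m ⊕ Aux m) ℝ :=
  (∑ j, ∑ i, C (1 / (KK m * (b j i) ^ 2)) * (bind₁ (linX (t j)) (Φ j i)) ^ 2) +
    ∑ j, C (4 * QQ m / KK m) * (X (Sum.inr (Sum.inr j)) * (C (1 / γ j) *
      bind₁ (linX (t j)) (detP (Φ j))) - 1) ^ 2

theorem eval_impP (Φ : Fin (Fintype.card (Fin m) + 1) → Fin m → MvPolynomial (Fin m) ℝ)
    (b : Fin (Fintype.card (Fin m) + 1) → Fin m → ℝ) (γ : Fin (Fintype.card (Fin m) + 1) → ℝ)
    (t : Fin (Fintype.card (Fin m) + 1) → ℝ) (D : Fin m → ℝ) (A : Aux m → ℝ) :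
    eval (Sum.elim D A) (impP Φ b γ t) =
      (∑ j, ∑ i, (1 / (KK m * (b j i) ^ 2)) *
        (eval (fun k => A (Sum.inl k) + t j * D k) (Φ j i)) ^ 2) +
      ∑ j, (4 * QQ m / KK m) * (A (Sum.inr j) * (1 / γ j *
        (jac (Φ j) (fun k => A (Sum.inl k) + t j * D k)).det) - 1) ^ 2 := by
  unfold impP
  simp only [map_add, map_sum, map_mul, map_pow, map_sub, map_one, eval_C, eval_bind, eval_linX,
    eval_X, Sum.elim_inr, eval_detP]

theorem impP_nonneg (Φ : Fin (Fintype.card (Fin m) + 1) → Fin m → MvPolynomial (Fin m) ℝ)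
    (b : Fin (Fintype.card (Fin m) + 1) → Fin m → ℝ) (γ : Fin (Fintype.card (Fin m) + 1) → ℝ)
    (t : Fin (Fintype.card (Fin m) + 1) → ℝ) (x : Fin m ⊕ Aux m → ℝ) :
    0 ≤ eval x (impP Φ b γ t) := by
  have h : x = Sum.elim (fun i => x (Sum.inl i)) (fun i => x (Sum.inr i)) := by
    funext a
    rcases a with a | a <;> rfl
  rw [h, eval_impP]
  have h1 : 0 ≤ KK m := zero_le_one.trans (one_le_KK m)
  have h2 : 0 ≤ QQ m := zero_le_one.trans (one_le_QQ m)
  refine add_nonneg (Finset.sum_nonneg fun j _ => Finset.sum_nonneg fun i _ => ?_)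
    (Finset.sum_nonneg fun j _ => ?_)
  · exact mul_nonneg (by positivity) (sq_nonneg _)
  · exact mul_nonneg (by positivity) (sq_nonneg _)

theorem totalDegree_impP_le {D : ℕ}
    (Φ : Fin (Fintype.card (Fin m) + 1) → Fin m → MvPolynomial (Fin m) ℝ)
    (hΦ : ∀ j i, (Φ j i).totalDegree ≤ D)
    (b : Fin (Fintype.card (Fin m) + 1) → Fin m → ℝ) (γ : Fin (Fintype.card (Fin m) + 1) → ℝ)
    (t : Fin (Fintype.card (Fin m) + 1) → ℝ) :
    (impP Φ b γ t).totalDegree ≤ 2 * (m * D + D + 1) := by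
  unfold impP
  refine (totalDegree_add _ _).trans (max_le ?_ ?_)
  · refine (totalDegree_finsetSum _ _).trans (Finset.sup_le fun j _ => ?_)
    refine (totalDegree_finsetSum _ _).trans (Finset.sup_le fun i _ => ?_)
    refine (totalDegree_mul _ _).trans ?_
    rw [totalDegree_C, zero_add]
    refine (totalDegree_pow _ _).trans ?_
    have h1 := (totalDegree_bind₁_le (linX (t j)) (totalDegree_linX_le (t j)) (Φ j i)).trans
      (hΦ j i)
    nlinarith only [h1]
  · refine (totalDegree_finsetSum _ _).trans (Finset.sup_le fun j _ => ?_)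
    refine (totalDegree_mul _ _).trans ?_
    rw [totalDegree_C, zero_add]
    refine (totalDegree_pow _ _).trans ?_
    have h1 := (totalDegree_bind₁_le (linX (t j)) (totalDegree_linX_le (t j)) (detP (Φ j))).trans
      (totalDegree_detP_le (Φ j) (hΦ j))
    have h2 : (X (Sum.inr (Sum.inr j)) * (C (1 / γ j) *
        bind₁ (linX (t j)) (detP (Φ j))) - 1 : MvPolynomial (Fin m ⊕ Aux m) ℝ).totalDegree ≤
        m * D + 1 := by
      refine (totalDegree_sub _ _).trans (max_le ?_ ?_)
      · refine (totalDegree_mul _ _).trans ?_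
        rw [totalDegree_X]
        have h3 := totalDegree_mul (C (1 / γ j) : MvPolynomial (Fin m ⊕ Aux m) ℝ)
          (bind₁ (linX (t j)) (detP (Φ j)))
        rw [totalDegree_C, zero_add] at h3
        omega
      · rw [totalDegree_one]; exact Nat.zero_le _
    nlinarith only [h2]

/-- The constant in the volume bound. -/
noncomputable def CI (m D : ℕ) : ℝ := (D + 1) ^ m * (2 * QQ m) ^ m * (4 * nn m + 4)

theorem CI_pos (m D : ℕ) : 0 < CI m D := by
  unfold CI
  have := one_le_QQ m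
  positivity

theorem volume_swept_impP_le {D : ℕ}
    (Φ : Fin (Fintype.card (Fin m) + 1) → Fin m → MvPolynomial (Fin m) ℝ)
    (hΦ : ∀ j i, (Φ j i).totalDegree ≤ D)
    (b : Fin (Fintype.card (Fin m) + 1) → Fin m → ℝ) (hb : ∀ j i, 0 < b j i)
    (γ : Fin (Fintype.card (Fin m) + 1) → ℝ) (hγ : ∀ j, 0 < γ j)
    (t : Fin (Fintype.card (Fin m) + 1) → ℝ) (j : Fin (Fintype.card (Fin m) + 1)) :
    volume (swept (impP Φ b γ t) (fun k => (X (Sum.inl k) : MvPolynomial (Aux m) ℝ)) Set.univ
      (t j)) ≤ ENNReal.ofReal (CI m D * (∏ i, b j i) / γ j) := by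
  have hK1 := one_le_KK m
  have hQ1 := one_le_QQ m
  have hK0 : 0 < KK m := by linarith
  have hQ0 : 0 < QQ m := by linarith
  have hn0 : (0 : ℝ) ≤ nn m := Nat.cast_nonneg _
  have hγ' : 0 < γ j / (4 * nn m + 4) := div_pos (hγ j) (by linarith only)
  have h1 := volume_small_le (Φ j) (hΦ j) (fun i => b j i * QQ m)
    (fun i => by have := hb j i; positivity) hγ'
  refine (measure_mono ?_).trans (h1.trans (ENNReal.ofReal_le_ofReal (le_of_eq ?_)))
  · rintro y ⟨D', -, A, hA, hP, hy⟩
    have hy' : y = fun k => A (Sum.inl k) + t j * D' k := by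
      funext k
      rw [hy k, eval_X]
    rw [eval_impP] at hP
    have hP' : (∑ j, ∑ i, (1 / (KK m * (b j i) ^ 2)) *
        (eval (fun k => A (Sum.inl k) + t j * D' k) (Φ j i)) ^ 2) +
      ∑ j, (4 * QQ m / KK m) * (A (Sum.inr j) * (1 / γ j *
        (jac (Φ j) (fun k => A (Sum.inl k) + t j * D' k)).det) - 1) ^ 2 ≤ 4 * (nn m : ℝ) + 1 := hP
    have hA' : ∀ a, |A a| ≤ 2 * nn m + 2 := fun a => by
      have h2 := norm_le_pi_norm A a
      rw [Real.norm_eq_abs] at h2
      exact h2.trans hA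
    have e1 : ∀ j, 0 ≤ ∑ i, (1 / (KK m * (b j i) ^ 2)) *
        (eval (fun k => A (Sum.inl k) + t j * D' k) (Φ j i)) ^ 2 := fun j =>
      Finset.sum_nonneg fun i _ => mul_nonneg (by positivity) (sq_nonneg _)
    have e2 : ∀ j, 0 ≤ (4 * QQ m / KK m) * (A (Sum.inr j) * (1 / γ j *
        (jac (Φ j) (fun k => A (Sum.inl k) + t j * D' k)).det) - 1) ^ 2 := fun j =>
      mul_nonneg (by positivity) (sq_nonneg _)
    have e3 := Finset.single_le_sum (f := fun j => ∑ i, (1 / (KK m * (b j i) ^ 2)) *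
        (eval (fun k => A (Sum.inl k) + t j * D' k) (Φ j i)) ^ 2) (fun j _ => e1 j)
        (Finset.mem_univ j)
    have e4 := Finset.single_le_sum (f := fun j => (4 * QQ m / KK m) * (A (Sum.inr j) * (1 / γ j *
        (jac (Φ j) (fun k => A (Sum.inl k) + t j * D' k)).det) - 1) ^ 2) (fun j _ => e2 j)
        (Finset.mem_univ j)
    have e5 := Finset.sum_nonneg (s := Finset.univ) fun j _ => e1 j
    have e6 := Finset.sum_nonneg (s := Finset.univ) fun j _ => e2 j
    rw [Set.mem_ofPred_eq, hy']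
    refine ⟨fun i => ?_, ?_⟩
    · have f1 := Finset.single_le_sum (f := fun i => (1 / (KK m * (b j i) ^ 2)) *
        (eval (fun k => A (Sum.inl k) + t j * D' k) (Φ j i)) ^ 2)
        (fun i _ => mul_nonneg (by have := hb j i; positivity) (sq_nonneg _)) (Finset.mem_univ i)
      set v := eval (fun k => A (Sum.inl k) + t j * D' k) (Φ j i) with hv
      have hbi := hb j i
      have f2 : (1 / (KK m * (b j i) ^ 2)) * v ^ 2 ≤ 4 * (nn m : ℝ) + 1 := by linarith only [hP', e3, e6, f1]
      have f3 : v ^ 2 ≤ QQ m * (b j i) ^ 2 := by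
        have f4 : (1 / (KK m * (b j i) ^ 2)) * v ^ 2 = v ^ 2 / (KK m * (b j i) ^ 2) := by ring
        rw [f4, div_le_iff₀ (by positivity)] at f2
        unfold QQ
        nlinarith only [f2, f2]
      have f5 : v ^ 2 ≤ (b j i * QQ m) ^ 2 := by
        have f6 : 0 ≤ (b j i) ^ 2 := sq_nonneg _
        have f7 : QQ m ≤ QQ m ^ 2 := by nlinarith only [hQ1]
        nlinarith only [f3, f7]
      exact abs_le_of_sq_le_sq f5 (by positivity)
    · set dt := (jac (Φ j) (fun k => A (Sum.inl k) + t j * D' k)).det with hdt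
      have g1 : (4 * QQ m / KK m) * (A (Sum.inr j) * (1 / γ j * dt) - 1) ^ 2 ≤ 4 * (nn m : ℝ) + 1 := by
        linarith only [hP', e5, e4]
      have g2 : (A (Sum.inr j) * (1 / γ j * dt) - 1) ^ 2 ≤ (1 / 2) ^ 2 := by
        rw [div_mul_eq_mul_div, div_le_iff₀ hK0] at g1
        have g3 : 4 * QQ m * (A (Sum.inr j) * (1 / γ j * dt) - 1) ^ 2 ≤ QQ m := by
          refine g1.trans (le_of_eq ?_)
          unfold QQ
          ring
        nlinarith only [g3, hQ1]
      have g4 := abs_le_of_sq_le_sq g2 (by norm_num)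
      rw [abs_le] at g4
      have g5 : 1 / 2 ≤ A (Sum.inr j) * (1 / γ j * dt) := by linarith only [g4, g4.1]
      have g6 : 1 / 2 ≤ (2 * nn m + 2) * (1 / γ j * |dt|) := by
        refine g5.trans ((le_abs_self _).trans ?_)
        rw [abs_mul, abs_mul, abs_of_pos (one_div_pos.mpr (hγ j))]
        exact mul_le_mul_of_nonneg_right (hA' _)
          (mul_nonneg (one_div_pos.mpr (hγ j)).le (abs_nonneg _))
      have hγj := hγ j
      rw [div_le_iff₀ (by linarith only)]
      have g7 : (2 * (nn m : ℝ) + 2) * (1 / γ j * |dt|) = (2 * nn m + 2) * |dt| / γ j := by ring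
      rw [g7, le_div_iff₀ hγj] at g6
      linarith only [g6]
  · have hprod : ∏ i, (2 * (b j i * QQ m)) = (2 * QQ m) ^ m * ∏ i, b j i := by
      have : ∀ i, 2 * (b j i * QQ m) = (2 * QQ m) * b j i := fun i => by ring
      simp only [this]
      rw [Finset.prod_mul_distrib, Finset.prod_const, Finset.card_univ, Fintype.card_fin]
    rw [hprod]
    unfold CI
    have hγj := (hγ j).ne'
    field_simp

/-- **Implicit labels are algebraic.** -/
theorem algAt_of_implicit {D J : ℕ}
    (Φ : Fin (Fintype.card (Fin m) + 1) → Fin m → MvPolynomial (Fin m) ℝ)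
    (hΦ : ∀ j i, (Φ j i).totalDegree ≤ D)
    (b : Fin (Fintype.card (Fin m) + 1) → Fin m → ℝ) (hb : ∀ j i, 0 < b j i)
    (γ : Fin (Fintype.card (Fin m) + 1) → ℝ) (hγ : ∀ j, 0 < γ j)
    (t : Fin (Fintype.card (Fin m) + 1) → ℝ) (ht : Function.Injective t) {w R : ℝ}
    (hw : ∀ i, wt t i ≤ w)
    (hR : ∀ j, CI m D * (∏ i, b j i) / γ j ≤ R / 2 ^ (m * J)) (Ds : Set (Fin m → ℝ))
    (hDs : ∀ d ∈ Ds, ∃ U : Fin m → ℝ, ‖U‖ ≤ 1 ∧ ∀ d' : Fin m → ℝ, dist d' d < 1 / 2 ^ J / 2 →
      ∀ j, (∀ i, |eval (fun k => U k + t j * d' k) (Φ j i)| ≤ b j i) ∧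
        γ j ≤ |(jac (Φ j) (fun k => U k + t j * d' k)).det|) :
    AlgAt (Aux m) m (2 * (m * D + D + 1)) J w R Ds := by
  have hK1 := one_le_KK m
  have hQ1 := one_le_QQ m
  have hK0 : 0 < KK m := by linarith only [hK1]
  refine ⟨impP Φ b γ t, fun k => X (Sum.inl k), t, Set.univ, totalDegree_impP_le Φ hΦ b γ t,
    impP_nonneg Φ b γ t, fun i => ?_, ht, MeasurableSet.univ, hw, ?_, fun j => ?_⟩
  · rw [totalDegree_X]; omega
  · intro d hd d' hd'
    refine ⟨Set.mem_univ _, ?_⟩
    obtain ⟨U, hU, hU2⟩ := hDs d hd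
    have h1 := hU2 d' hd'
    set A : Aux m → ℝ := Sum.elim U fun j =>
      γ j / (jac (Φ j) (fun k => U k + t j * d' k)).det with hA
    have hdet : ∀ j, (jac (Φ j) (fun k => U k + t j * d' k)).det ≠ 0 := by
      intro j h0
      have := (h1 j).2
      rw [h0, abs_zero] at this
      linarith only [this, hγ, hγ j]
    refine ⟨A, ?_, ?_⟩
    · rw [pi_norm_le_iff_of_nonneg zero_le_one]
      intro a
      rcases a with k | j
      · exact (norm_le_pi_norm U k).trans hU
      · simp only [hA, Sum.elim_inr]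
        rw [Real.norm_eq_abs, abs_div, abs_of_pos (hγ j),
          div_le_one ((hγ j).trans_le (h1 j).2)]
        exact (h1 j).2
    · rw [eval_impP]
      simp only [hA, Sum.elim_inl, Sum.elim_inr]
      have e1 : ∑ j, (4 * QQ m / KK m) * (γ j / (jac (Φ j) (fun k => U k + t j * d' k)).det *
          (1 / γ j * (jac (Φ j) (fun k => U k + t j * d' k)).det) - 1) ^ 2 = 0 := by
        refine Finset.sum_eq_zero fun j _ => ?_
        have h2 := hdet j
        have h3 := (hγ j).ne'
        have h4 : γ j / (jac (Φ j) (fun k => U k + t j * d' k)).det *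
          (1 / γ j * (jac (Φ j) (fun k => U k + t j * d' k)).det) = 1 := by
          field_simp
        rw [h4]
        ring
      rw [e1, add_zero]
      have e2 : ∀ j ∈ (Finset.univ : Finset (Fin (Fintype.card (Fin m) + 1))),
          ∑ i, (1 / (KK m * (b j i) ^ 2)) *
          (eval (fun k => U k + t j * d' k) (Φ j i)) ^ 2 ≤ m * (1 / KK m) := by
        intro j _
        refine (Finset.sum_le_card_nsmul _ _ (1 / KK m) fun i _ => ?_).trans (le_of_eq ?_)
        · have h5 := (h1 j).1 i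
          have hbi := hb j i
          have h6 : (eval (fun k => U k + t j * d' k) (Φ j i)) ^ 2 ≤ (b j i) ^ 2 := by
            rw [← sq_abs]
            exact pow_le_pow_left₀ (abs_nonneg _) h5 2
          rw [one_div_mul_eq_div, div_le_div_iff₀ (by positivity) hK0]
          nlinarith only [h6, hK1]
        · rw [Finset.card_univ, Fintype.card_fin, nsmul_eq_mul]
      refine (Finset.sum_le_card_nsmul _ _ _ e2).trans ?_
      rw [Finset.card_univ, Fintype.card_fin, nsmul_eq_mul]
      push_cast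
      rw [Fintype.card_fin]
      have h7 : ((m : ℝ) + 1) * (m * (1 / KK m)) = ((m + 1) * m) / KK m := by ring
      rw [h7, div_le_one hK0]
      unfold KK
      linarith only
  · exact (volume_swept_impP_le Φ hΦ b hb γ hγ t j).trans (ENNReal.ofReal_le_ofReal (hR j))

end Pool.KEND
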